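import Pool.Agent.Q295.PN.AllB
import Pool.Agent.Q38.PN.K10
import Pool.Agent.Q241.PN.Kp
import Pool.Agent.Q38.PN.A2
import Pool.Agent.Q187.PN.Fn

/-!
# Project PN: assembly
-/

set_option autoImplicit false

namespace Pool.Agent.Q295.PN

/-- The final statement. -/
theorem all_final (t : NNReal) (ht : 0 < t)
    (ht1 : t ≤ 1) (ε : ℝ) (hε : 0 < ε) :
    ∃ n₀ : ℕ, ∀ n : ℕ, n₀ ≤ n → 1 ≤ n → ∀ (Ω : Type) [MeasurableSpace Ω]
      (P : MeasureTheory.Measure Ω)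
      (C : Ω → ℕ × ℕ) (Z : ℕ → Ω → ((ℝ × ℝ) × ℝ) × (ℝ × ℝ)), Setting n t P C Z →
      |ProbabilityTheory.covariance (fun ω => (LL (eta (C ω) (fun i => Z i ω)) : ℝ))
          (fun ω => (LL (etat t (C ω) (fun i => Z i ω)) : ℝ)) P /
        Real.sqrt (ProbabilityTheory.variance (fun ω => (LL (eta (C ω) (fun i => Z i ω)) : ℝ)) P *
          ProbabilityTheory.variance (fun ω => (LL (etat t (C ω) (fun i => Z i ω)) : ℝ)) P)| < ε :=
  all Pool.Agent.Q38.PNK.k10 Pool.Agent.Q241.PN.kp Pool.Agent.Q38.PNA.a2 Pool.Agent.Q187.PN.fn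
    t ht ht1 ε hε

end Pool.Agent.Q295.PN
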