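import Pool.Agent.Q295.PN.Fin
import Pool.Agent.Q190.PN.Fq
import Pool.Agent.Q190.PN.Fd
import Pool.Agent.Q150.PL.L1
import Pool.Agent.Q150.PL.Ch
import Pool.Agent.Q124.PN.Lv
import Pool.Agent.Q124.PN.Gw
import Pool.Agent.Q124.PN.Cm
import Pool.Agent.Q124.PN.Mc
import Pool.Agent.Q38.PN.De
import Pool.Agent.Q38.PN.Mk
import Pool.Agent.Q154.PN.No
import Pool.Agent.Q275.PN.Bd
import Pool.Agent.Q275.PN.Ga
import Pool.Agent.Q275.PN.Bc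
import Pool.Agent.Q275.PN.Fc
import Pool.Agent.Q275.PN.D1
import Pool.Agent.Q166.PN.Bp
import Pool.Agent.Q166.PN.Bw
import Pool.Agent.Q241.PN.Sc
import Pool.Agent.Q237.PL.Bl
import Pool.Agent.Q237.PL.Gv
import Pool.Agent.Q237.PL.Gl

/-!
# Project PN: assembly of the finite part
-/

set_option autoImplicit false

namespace Pool.Agent.Q295.PN

open Finset

/-- Conclusion of CM. -/
theorem allCM : ∀ (ι : Type) [Fintype ι] [DecidableEq ι] (p B R s₀ ρ : ℝ) (k : ℕ)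
  (L : (ι → Bool) → ℝ) (h : ι → (ι → Bool) → ℝ), 0 < p → p < 1 → 1 ≤ B → 1 ≤ R → 0 < s₀ →
  s₀ ≤ 1 / 2 → 0 ≤ ρ → ρ ≤ 1 →
  (∀ x κ, 0 ≤ DD L x κ ∧ DD L x κ ≤ h x κ ∧ h x κ ≤ 1) →
  (∀ x y κ, h x (Function.update κ y true) ≤ B * h x (Function.update κ y false) ∧
    h x (Function.update κ y false) ≤ B * h x (Function.update κ y true)) →
  0 ≤ SS p L ρ - SS p L 0 ∧
  SS p L ρ - SS p L 0 ≤ (s₀⁻¹) ^ k * Real.exp (8 * B * R * s₀) *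
    (p * ∑ x : ι, (Ex p (h x)) ^ 2 + p * Fintype.card ι * Real.exp (-R)) + ρ ^ k * Vr p L :=
  Pool.Agent.Q124.PN.cm Pool.Agent.Q190.PN.fq Pool.Agent.Q190.PN.fd Pool.Agent.Q190.PN.fs
    Pool.Agent.Q124.PN.gw Pool.Agent.Q124.PN.lv Pool.Agent.Q150.PL.l1

theorem aMC : S_MC := Pool.Agent.Q124.PN.mc
theorem aDE : S_DE := Pool.Agent.Q38.PN.de

/-- Conclusion of BL. -/
theorem allBL : ∀ (ι : Type) [Fintype ι] [DecidableEq ι] [PartialOrder ι]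
  (p α T v vT B e : ℝ) (M J : ℕ),
  0 < p → p < 1 → 0 < α → α ≤ 1 → 1 ≤ M → 1 / 2 ≤ (1 - p) ^ (M + 1) →
  0 ≤ v → 32 * v ≤ 1 → 0 ≤ vT →
  (∀ y : ι, ∑ z, kk p (2 * α) y z ≤ v) → (∀ z : ι, ∑ y, kk p (2 * α) y z ≤ v) →
  (∀ y : ι, ∑ z, kk p T y z ≤ vT) → (∀ z : ι, ∑ y, kk p T y z ≤ vT) →
  64 * (M + vT + 1) / α ≤ B →
  4 * (v ^ M + p * Fintype.card ι * (1 + p * Fintype.card ι) * Real.exp (-T)) +
    Pr p (fun κ : ι → Bool => Lc κ ≤ 2 * M + J) ≤ e →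
  p * ∑ x : ι, (Ex p (fun κ => (B⁻¹) ^ (De x κ))) ^ 2 ≤
    8 * (p * ∑ x : ι, (rr p 0 x) ^ 2) + 2 * (2 * e + (B⁻¹) ^ J) ^ 2 * (p * Fintype.card ι) := by
  intro ι _ _ _ p α T v vT B e M J hp hp1 hα hα1 hM hpm hv hv1 hvT k1 k2 k3 k4 hB he
  have hBP := Pool.Agent.Q166.PN.bp aMC aDE Pool.Agent.Q38.PN.mk Pool.Agent.Q38.PN.es
    Pool.Agent.Q38.PN.ps Pool.Agent.Q275.PN.ga Pool.Agent.Q275.PN.bd Pool.Agent.Q150.PL.ch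
    Pool.Agent.Q154.PN.no
  refine Pool.Agent.Q237.PL.Bl.bl aMC aDE Pool.Agent.Q241.PN.sc ι p α T v vT B e M J hp hp1 hα hα1
    hM hpm hv hv1 hvT k1 k2 k3 k4 hB he ?_ ?_
  · intro j x
    exact hBP ι p α T v M j x hp hp1 hα hM hv k1
  · intro j x
    exact Pool.Agent.Q166.PN.bw hBP ι p α T v M j x hp hp1 hα hM hv k2

/-- Conclusion of BC for square grids. -/
theorem allBC : ∀ (N : ℕ) (p α T v vT B e R s₀ ρ : ℝ)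
  (M J k : ℕ), 0 < p → p < 1 → 0 < α → α ≤ 1 → 1 ≤ M → 1 / 2 ≤ (1 - p) ^ (M + 1) →
  0 ≤ v → 32 * v ≤ 1 → 0 ≤ vT →
  (∀ y : Fin N × Fin N, ∑ z, kk p (2 * α) y z ≤ v) →
  (∀ z : Fin N × Fin N, ∑ y, kk p (2 * α) y z ≤ v) →
  (∀ y : Fin N × Fin N, ∑ z, kk p T y z ≤ vT) → (∀ z : Fin N × Fin N, ∑ y, kk p T y z ≤ vT) →
  64 * (M + vT + 1) / α ≤ B →
  4 * (v ^ M + p * N ^ 2 * (1 + p * N ^ 2) * Real.exp (-T)) +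
    Pr p (fun κ : Fin N × Fin N → Bool => Lc κ ≤ 2 * M + J) ≤ e →
  1 ≤ R → 0 < s₀ → s₀ ≤ 1 / 2 → 0 ≤ ρ → ρ ≤ 1 →
  0 ≤ SS p (fun κ : Fin N × Fin N → Bool => (Lc κ : ℝ)) ρ -
    SS p (fun κ : Fin N × Fin N → Bool => (Lc κ : ℝ)) 0 ∧
  SS p (fun κ : Fin N × Fin N → Bool => (Lc κ : ℝ)) ρ -
    SS p (fun κ : Fin N × Fin N → Bool => (Lc κ : ℝ)) 0 ≤
    (s₀⁻¹) ^ k * Real.exp (8 * B * R * s₀) *
    (8 * (p * ∑ x : Fin N × Fin N, (rr p 0 x) ^ 2) +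
      2 * (2 * e + (B⁻¹) ^ J) ^ 2 * (p * N ^ 2) +
      p * N ^ 2 * Real.exp (-R)) + ρ ^ k * Vr p (fun κ : Fin N × Fin N → Bool => (Lc κ : ℝ)) := by
  intro N p α T v vT B e R s₀ ρ M J k h1 h2 h3 h4 h5 h6 h7 h8 h9 k1 k2 k3 k4 hB he hR hs hs' hρ hρ'
  have hc : (Fintype.card (Fin N × Fin N) : ℝ) = (N : ℝ) ^ 2 := by
    simp [sq]
  have := Pool.Agent.Q275.PN.bc aMC aDE allCM allBL (Fin N × Fin N) p α T v vT B e R s₀ ρ M J k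
    h1 h2 h3 h4 h5 h6 h7 h8 h9 k1 k2 k3 k4 hB (by rw [hc]; exact he) hR hs hs' hρ hρ'
  rw [hc] at this
  exact this

end Pool.Agent.Q295.PN
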