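import Pool.Agent.W533.LP.Stm
import Pool.Agent.W533.LP.Stm2
import Pool.Agent.W533.LP.Stm3
import Pool.Agent.W589.LP.D1
import Pool.Agent.W589.LP.D2
import Pool.Agent.W370.LP.Paths
import Pool.Agent.W692.LP.A
import Pool.Agent.W335.LP.Cpl
import Pool.Agent.W634.LP.Burke
import Pool.Agent.W990.LP.Mom
import Pool.Agent.W179.LP.VarId

/-!
# Project PN: the library on geometric last passage percolation, in one file

All these statements (`Pool/Agent/W533/LP/Defs.lean`, `Stm.lean`, `Stm3.lean`) hold for every
`q`, without constants which depend on `q`.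
-/

set_option autoImplicit false

namespace Pool.Agent.Q295.PN

open Pool.Agent.W533.LP

theorem lAttr : DAttr := Pool.Agent.W589.LP.dAttr
theorem lMono : DMono := Pool.Agent.W589.LP.dMono
theorem lMax : DMax := Pool.Agent.W589.LP.dMax
theorem lSlope : DSlope := Pool.Agent.W589.LP.dSlope
theorem lSlopeMono : DSlopeMono := Pool.Agent.W589.LP.dSlopeMono
theorem lIncl : DIncl := Pool.Agent.W589.LP.dIncl
theorem lTransp : DTransp := Pool.Agent.W589.LP.dTransp
theorem lSand : DSand := Pool.Agent.W589.LP.dSand
theorem lChain : DChain := Pool.Agent.W370.LP.dChain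
theorem lRot : DRot := Pool.Agent.W370.LP.dRot
theorem lTransfer : PTransfer := Pool.Agent.W692.LP.pTransfer
theorem lExist : PExist := Pool.Agent.W692.LP.pExist
theorem lBlock : PBlock := Pool.Agent.W692.LP.pBlock
theorem lMeas : AMeas := Pool.Agent.W692.LP.aMeas
theorem lLaw : ALaw := Pool.Agent.W692.LP.aLaw
theorem lLawB : ALawB := Pool.Agent.W692.LP.aLawB
theorem lSys : ASys := Pool.Agent.W692.LP.aSys
theorem lOps : AOps := Pool.Agent.W692.LP.aOps
theorem lCouple : PCouple := Pool.Agent.W335.LP.pCouple
theorem lBurke : PBurke := Pool.Agent.W634.LP.pBurke Pool.Agent.W692.LP.pBlock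
theorem lMom : PMom := Pool.Agent.W990.LP.Mom.pMom
theorem lVarId : PVarId := Pool.Agent.W179.LP.pVarId lMeas lOps lTransp lSlope lMom lBurke

end Pool.Agent.Q295.PN
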