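import Pool.Agent.Q295.PN.StmA
import Pool.Agent.Q295.PN.Lib

/-!
# Project PN: statements of the geometric last passage part, uniform in `q`

Write `r = √q` and `ν = n r` (later `ν = N r`).  All constants are absolute; `q ≤ 1/16`.
The library (file `Lib.lean`: theorems `lMono`, `lMax`, `lIncl`, `lSand`, `lTransp`, `lRot`,
`lBurke`, `lVarId`, `lCouple`, `lMom`, `lMeas`, `lLaw`, `lLawB`, `lSys`, `lOps`, …) may be used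
freely.  Proofs for fixed `q` which can serve as models: `Pool/Agent/W154/LP/Chern.lean` (K2),
`W990/LP/Mom.lean` (K1, KAC), `W346/LP/EX.lean` (K4), `W346/LP/SW.lean` (K7), `W925/LP/T1.lean` and
`W654/LP/Exit.lean` (K5), `W85/LP/VB.lean` (K6), `W74/LP/QV.lean` (K8), `W407/LP/SS.lean` (K9, BE, AL,
A2), `W381/LP/Ac.lean` and `W922/LP/LB.lean` (K10).
-/

set_option autoImplicit false

namespace Pool.Agent.Q295.PN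

open MeasureTheory ProbabilityTheory Finset
open Pool.Agent.W533.LP

/-- Mean of the stationary `G` at `(m,n)`. -/
noncomputable def MM (m n : ℕ) (q a : ℝ) : ℝ := m * mean a + n * mean (q / a)

/-- Indicators of positive weights. -/
def ind {Ω : Type} (W : ℕ → ℕ → Ω → ℕ) : ℕ → ℕ → Ω → ℕ :=
  fun i j ω => if 1 ≤ W i j ω then 1 else 0

/-- JOB K1.  Fourth central moment of a sum of geometric variables.
Proof. For one variable `E (X - mean a)² = vari a ≤ 4a` and `E (X - mean a)^4 ≤ C a` (for `a ≤ 1/2`: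
`(X-m)^4 ≤ 8 (X^4 + m^4)`, `E X^4 = (1-a) Σ_{k≥1} k^4 a^k ≤ a Σ k^4 2^{-(k-1)}`, `m ≤ 2a`).  For the sum
of centred independent variables `E S^4 = Σ E Y_i^4 + 3 Σ_{i≠j} E Y_i² E Y_j² ≤ n C a + 3 (4na)²`
(or induction on `n`).  (Mean, variance and integrability are in `lMom`.) -/
def S_K1 : Prop := ∃ C : ℝ, 0 < C ∧ ∀ {Ω : Type} [MeasurableSpace Ω] (μ : Measure Ω) (a : ℝ)
  (n : ℕ) (X : Fin n → Ω → ℕ), 0 ≤ a → a ≤ 1 / 2 → GeoFam μ (fun _ => a) X →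
  ∫ ω, (∑ i, (X i ω : ℝ) - n * mean a) ^ 4 ∂μ ≤ C * ((n * a) ^ 2 + n * a)

/-- JOB K2.  Chernoff bounds on the scale `λ ≥ n a`.
Proof. For `|t| ≤ 1/4`, `a ≤ 1/2`: `log E e^{t(X - mean a)} = log((1-a)/(1-a e^t)) - t mean a =
-log(1 - mean a · u) - t mean a`, `u = e^t - 1`, `|u| ≤ 0.3`, `mean a ≤ 1`; with `-log(1-y) ≤ y + y²` for
`|y| ≤ 1/2` and `u ≤ t + t²`, `u² ≤ 2t²` this is `≤ 3 mean a t² ≤ 6 a t²`.  So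
`P(Σ ≥ n mean a + x) ≤ exp(-t x + 6 λ t²)`; take `t = x/(12 λ) ≤ 1/12`: `exp(-x²/(24 λ))`.  The lower
tail is the same with `-t`. -/
def S_K2 : Prop := ∃ c : ℝ, 0 < c ∧ ∀ {Ω : Type} [MeasurableSpace Ω] (μ : Measure Ω) (a lam x : ℝ)
  (n : ℕ) (X : Fin n → Ω → ℕ), 0 ≤ a → a ≤ 1 / 2 → 0 < lam → n * a ≤ lam → 0 ≤ x → x ≤ lam →
  GeoFam μ (fun _ => a) X →
  μ.real {ω | n * mean a + x ≤ ∑ i, (X i ω : ℝ)} ≤ Real.exp (-c * x ^ 2 / lam) ∧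
  μ.real {ω | ∑ i, (X i ω : ℝ) ≤ n * mean a - x} ≤ Real.exp (-c * x ^ 2 / lam)

/-- JOB KM.  Calculus of the means.
Proof of (1): `mean(r(1+θ)) - mean(r(1+θ/2)) = (rθ/2)/((1-r-rθ)(1-r-rθ/2)) ≥ (rθ/2)/(1-r)²`,
`mean(r/(1+θ/2)) - mean(r/(1+θ)) = (rθ/2)/((1+θ-r)(1+θ/2-r)) ≤ (rθ/2)/((1-r)²(1+3θ/2))` since
`(1-r+θ)(1-r+θ/2) ≥ (1-r)² (1+3θ/2)`... (`1-r ≤ 1`).  With `m ≥ n(1-θ/16)` the difference of the `MM` is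
`≥ (n rθ/2)(1-r)^{-2} (1 - θ/16 - 1/(1+3θ/2)) ≥ (n rθ/2) θ` as `1/(1+3θ/2) ≤ 1 - (3θ/2)/(1+3/16)`.
(2): with `b = q/a`, `MM(a(1+δ)) - MM(a) = δ [m a/((1-a)(1-a-aδ)) - n b/((1-b)(1+δ-b))]`; write
`m a = n b + (m-n) a + n (a-b)`, `|a-b| = |a-r|(a+r)/a ≤ 3|a-r|`, and for the main part
`n b [1/((1-a)(1-a-aδ)) - 1/((1-b)(1+δ-b))] ≤ C n r (δ + |a-b|)`, all denominators being `≥ 1/8`.
(3), (4): elementary. -/
def S_KM : Prop :=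
  (∀ (r θ : ℝ) (m n : ℕ), 0 < r → r ≤ 1 / 4 → 0 < θ → θ ≤ 1 / 8 →
    16 * |(m : ℝ) - n| ≤ n * θ →
    n * r * θ ^ 2 / 4 ≤ MM m n (r ^ 2) (r * (1 + θ)) - MM m n (r ^ 2) (r * (1 + θ / 2))) ∧
  (∃ C : ℝ, 1 ≤ C ∧ ∀ (r a δ : ℝ) (m n : ℕ), 0 < r → r ≤ 1 / 4 → |a - r| ≤ r / 10 → 0 < δ →
    δ ≤ 1 / 8 → m ≤ 2 * n → n ≤ 2 * m →
    MM m n (r ^ 2) (a * (1 + δ)) - MM m n (r ^ 2) a ≤
      C * δ * (n * r * δ + |(m : ℝ) - n| * r + n * |a - r|)) ∧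
  (∀ x y : ℝ, 0 ≤ x → x ≤ 1 / 2 → 0 ≤ y → y ≤ 1 / 2 → |mean x - mean y| ≤ 4 * |x - y| ∧
    |vari x - vari y| ≤ 16 * |x - y| ∧ x ≤ mean x ∧ mean x ≤ 2 * x ∧ x ≤ vari x ∧
    vari x ≤ 4 * x) ∧
  (∀ x δ : ℝ, 0 ≤ x → 0 ≤ δ → x * (1 + δ) ≤ 1 / 2 → x * δ ≤ mean (x * (1 + δ)) - mean x)

/-- JOB K3.  Tails of the stationary `G`.
Proof. `G(m,n) = Σ_{j<n} J_j + Σ_{i<m} Ninc n i`; the `J_j` are independent geometric `q/a ≤ 2r`, the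
`Ninc n i` independent geometric `a ≤ 2r` (`lBurke`).  Each sum deviates by `x/2` from its mean with
probability at most `exp(-c (x/2)²/λ)` by K2 (`n (q/a) ≤ λ`, `m a ≤ λ`). -/
def S_K3 : Prop := S_K2 → ∃ c : ℝ, 0 < c ∧ ∀ {Ω : Type} [MeasurableSpace Ω] (μ : Measure Ω)
  (q a lam x : ℝ) (I J : ℕ → Ω → ℕ) (W : ℕ → ℕ → Ω → ℕ) (m n : ℕ), 0 < q → q ≤ 1 / 16 →
  Real.sqrt q / 2 ≤ a → a ≤ 2 * Real.sqrt q → Sys0 μ q a I J W → 0 < lam →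
  2 * ((m : ℝ) + n) * Real.sqrt q ≤ lam → 0 ≤ x → x ≤ lam →
  μ.real {ω | MM m n q a + x ≤ (Gr I J W m n ω : ℝ)} ≤ 2 * Real.exp (-c * x ^ 2 / lam) ∧
  μ.real {ω | (Gr I J W m n ω : ℝ) ≤ MM m n q a - x} ≤ 2 * Real.exp (-c * x ^ 2 / lam)

/-- JOB KT.  Moments of the point to point time.
Proof. Take a stationary system with `a = √q` on some space (`lSys` with `κ = Empty`); `T ≤ G` there
(`lMono`), `G = Σ J_j + Σ Ninc` as in K3, so `E G ≤ (m+n) mean √q` and, with K1 and `lMom`,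
`E G^4 ≤ 64 (E(Σ-E)^4 + …) ≤ C ((m+n)√q + 1)^4`.  Transfer to the given space by `lLawB`. -/
def S_KT : Prop := S_K1 → ∃ C : ℝ, 1 ≤ C ∧ ∀ {Ω : Type} [MeasurableSpace Ω] (μ : Measure Ω)
  (q : ℝ) (W : ℕ → ℕ → Ω → ℕ) (m n : ℕ), 0 < q → q ≤ 1 / 16 → Bulk μ q W →
  MemLp (fun ω => (Tr W m n ω : ℝ)) 4 μ ∧
  ∫ ω, (Tr W m n ω : ℝ) ^ 4 ∂μ ≤ C * (((m : ℝ) + n) * Real.sqrt q + 1) ^ 4 ∧
  ∫ ω, (Tr W m n ω : ℝ) ∂μ ≤ ((m : ℝ) + n) * mean (Real.sqrt q)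

/-- JOB K4.  The exit is on the expected side, exponential bound.
Proof. First part: `a = r(1+θ)`, `a'' = r(1+θ/2) ≤ a`.  In the coupling (`lCouple`; the law of the
event is determined, `lLaw`) `J ≤ J''`, so on the event `G^a = max(G(I,0), G(0,J)) = G(0,J) ≤
G(0,J'') ≤ G^{a''}` (`lMax`, `lMono`).  By KM (1) `MM(a) - MM(a'') ≥ n r θ²/4 = 2x`, `x = n r θ²/8`, so
`P ≤ P(G^a ≤ MM(a) - x) + P(G^{a''} ≥ MM(a'') + x) ≤ 4 exp(-c x²/λ)`, `λ = 8 n r ≥ 2 (m+n) r` by K3.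
Second part: transpose (`lOps`, `lTransp`): `q/(r/(1+θ)) = r(1+θ)`, `(m,n)` becomes `(n,m)`, and
`m ≥ n/2`. -/
def S_K4 : Prop := S_K2 → S_K3 → S_KM → ∃ C : ℝ, 1 ≤ C ∧ ∀ {Ω : Type} [MeasurableSpace Ω]
  (μ : Measure Ω) (q θ : ℝ) (I J : ℕ → Ω → ℕ) (W : ℕ → ℕ → Ω → ℕ) (m n : ℕ), 0 < q → q ≤ 1 / 16 →
  0 < θ → θ ≤ 1 / 8 → 1 ≤ m → 1 ≤ n → 16 * |(m : ℝ) - n| ≤ n * θ → 16 * |(m : ℝ) - n| ≤ m * θ →
  (Sys0 μ q (Real.sqrt q * (1 + θ)) I J W → μ.real {ω | Gr I zr W m n ω < Gr zr J W m n ω} ≤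
    C * Real.exp (-(n * Real.sqrt q * θ ^ 4) / C)) ∧
  (Sys0 μ q (Real.sqrt q / (1 + θ)) I J W → μ.real {ω | Gr zr J W m n ω < Gr I zr W m n ω} ≤
    C * Real.exp (-(n * Real.sqrt q * θ ^ 4) / C))

/-- JOB K5.  Long exits.
Proof. Let `U = (u+1) r ≤ m r ≤ 2ν`, `ν = n r`, `δ = c U/ν` (`c` small, `δ ≤ 1/8`), `a' = a(1+δ)`.  In the
coupling of `a ≤ a'` (`lCouple`, `lLaw`), on `Hs` `G^a + (ps I'(u+1) - ps I(u+1)) ≤ G^{a'}` (`lIncl`).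
Means: `MM(a) + (u+1)(mean a' - mean a) - MM(a') ≥ 0.9 U δ - C₁ δ (ν δ + |m-n| r + n|a-r|) ≥ U δ/2`
by KM (2), (4) if `C₁ c ≤ 0.1` and `C ≥ 10 C₁`.  So one of `G^a`, `G^{a'}`, `ps I'(u+1)`, `ps I(u+1)`
deviates from its mean by at least `x = U δ/8 = c U²/(8ν)`, and with `λ = 6ν` (all parameters are in
`[r/2, 2r]`) K3 and K2 give `6 exp(-c₂ x²/λ) = 6 exp(-c₃ U^4/ν³)`. -/
def S_K5 : Prop := S_K2 → S_K3 → S_KM → ∃ C : ℝ, 1 ≤ C ∧ ∀ {Ω : Type} [MeasurableSpace Ω]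
  (μ : Measure Ω) (q a : ℝ) (I J : ℕ → Ω → ℕ) (W : ℕ → ℕ → Ω → ℕ) (m n u : ℕ), 0 < q →
  q ≤ 1 / 16 → |a - Real.sqrt q| ≤ Real.sqrt q / 10 → 1 ≤ n → n ≤ 2 * m → m ≤ 2 * n → u < m →
  C * (|(m : ℝ) - n| * Real.sqrt q + n * |a - Real.sqrt q|) ≤ ((u : ℝ) + 1) * Real.sqrt q →
  Sys0 μ q a I J W →
  μ.real (Hs I J W u m n) ≤
    C * Real.exp (-((((u : ℝ) + 1) * Real.sqrt q) ^ 4) / (C * (n * Real.sqrt q) ^ 3))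

/-- JOB K6.  Variance of the stationary `G`.
Proof. First identity of `lVarId`.  `n vari(q/a) - m vari a ≤ C(|n-m| r + n|a-r|) ≤ C ν^{0.7}` (KM (3),
`|q/a - a| ≤ 3|a-r|`).  In `2 mean a Σ_{i<m} ∫_{Hs i} (I_i+1)` the terms with `(i+1) r < ν^{0.755}` are
at most `ν^{0.755}/r` in number, each `≤ E(I_i+1) ≤ 2`, and `mean a ≤ 3r`: total `≤ 12 ν^{0.755}`.  For
the others K5 applies (`C(|m-n| r + n|a-r|) ≤ 2C ν^{0.7} ≤ ν^{0.755}` for large `ν`):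
`∫_{Hs i}(I_i+1) ≤ (E(I_i+1)²)^{1/2} P(Hs i)^{1/2} ≤ C exp(-ν^{0.02}/C)`, total `≤ C ν exp(-ν^{0.02}/C)`
`≤ C`.  For large `ν` the hypotheses `|a-r| ≤ r/10`, `n ≤ 2m`, `m ≤ 2n` hold. -/
def S_K6 : Prop := S_K2 → S_K3 → S_KM → S_K5 → ∃ C ν₀ : ℝ, 1 ≤ C ∧ 1 ≤ ν₀ ∧
  ∀ {Ω : Type} [MeasurableSpace Ω] (μ : Measure Ω) (q a : ℝ) (I J : ℕ → Ω → ℕ)
  (W : ℕ → ℕ → Ω → ℕ) (m n : ℕ), 0 < q → q ≤ 1 / 16 → ν₀ ≤ n * Real.sqrt q →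
  |a - Real.sqrt q| ≤ Real.sqrt q * (n * Real.sqrt q) ^ (-(3 / 10 : ℝ)) →
  |(m : ℝ) - n| * Real.sqrt q ≤ (n * Real.sqrt q) ^ (7 / 10 : ℝ) → Sys0 μ q a I J W →
  variance (fun ω => (Gr I J W m n ω : ℝ)) μ ≤ C * (n * Real.sqrt q) ^ (755 / 1000 : ℝ)

/-- JOB K7.  The exit is on the expected side, near the critical scale.
Proof. As K4, with Chebyshev and K6 instead of K3: first part for the wider range
`ν^{-0.308} ≤ θ ≤ ν^{-0.301}`, `ν = n r`: `a = r(1+θ)`, `a'' = r(1+θ/2)` satisfy `|a-r| ≤ r ν^{-0.3}`, and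
`|m-n| r ≤ ν θ/16 ≤ ν^{0.7}`.  `P ≤ (Var G^a + Var G^{a''})/x²`, `x = νθ²/8 ≥ ν^{0.384}/8`,
`≤ 128 C ν^{0.755 - 0.768} → 0`.  Second part by transposition (`m` and `n` exchanged;
`|m-n| ≤ nθ/16`, so `m r` and `n r` differ by a factor close to 1, absorbed by the wider range). -/
def S_K7 : Prop := S_K2 → S_K3 → S_KM → S_K5 → S_K6 → ∀ ε : ℝ, 0 < ε → ∃ ν₀ : ℝ, 1 ≤ ν₀ ∧
  ∀ {Ω : Type} [MeasurableSpace Ω] (μ : Measure Ω) (q θ : ℝ) (I J : ℕ → Ω → ℕ)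
  (W : ℕ → ℕ → Ω → ℕ) (m n : ℕ), 0 < q → q ≤ 1 / 16 → ν₀ ≤ n * Real.sqrt q →
  (n * Real.sqrt q) ^ (-(307 / 1000 : ℝ)) ≤ θ → θ ≤ (n * Real.sqrt q) ^ (-(302 / 1000 : ℝ)) →
  20 * |(m : ℝ) - n| ≤ n * θ →
  (Sys0 μ q (Real.sqrt q * (1 + θ)) I J W →
    μ.real {ω | Gr I zr W m n ω < Gr zr J W m n ω} ≤ ε) ∧
  (Sys0 μ q (Real.sqrt q / (1 + θ)) I J W →
    μ.real {ω | Gr zr J W m n ω < Gr I zr W m n ω} ≤ ε)

/-- JOB K8.  Second moment of the increments of `T`.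
Proof. Horizontal increments; vertical ones by transposition (`lOps`, `lTransp`).  Let `ν = n r`,
`θ = ν^{-0.24}`, `a₊ = r(1+θ)`, `a₋ = r/(1+θ)`.  Work in stationary systems with these parameters
(`lSys`; the law of `T` is transferred by `lLawB`).  By `lSand` `T(m+i,k) - T(m,k) ≤ X₊ :=
G₊(m+i,k) - G₊(m,k)` outside the event of K4 (first part) at `(m,k)`, and `≥ X₋` (parameter `a₋`)
outside the event of K4 (second part) at `(m+i,k)`.  `X_±` is a sum of `i` independent geometric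
`a_±` (`lBurke`), `E(X_± - i mean a_±)² = i vari a_± ≤ C i r ≤ C √ν`, `|i mean a_± - i mean r| ≤
C i r θ ≤ C ν^{0.26}`.  K4 applies: `|m-k| r ≤ 16√ν`, `k r ≥ ν/2`, `kθ r ≥ ν^{0.76}/2`; the failure
probability is `≤ C exp(-ν^{0.04}/C)`.  On the failure event use `(T(m+i,k)-T(m,k)-i mean r)² ≤
2 T(m+i,k)² + 2 (i mean r)²`, Cauchy-Schwarz and KT: `≤ C ν² exp(-ν^{0.04}/C) ≤ C`.  Precisely
`(ΔT - i mean r)² ≤ (X₊ - i mean r)² + (X₋ - i mean r)² + 1_{failure}(…)`, where the two parts live on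
different spaces: use `x² = (x⁺)² + (x⁻)²`, estimate `E ((ΔT - i mean r)⁺)²` and `E ((ΔT - i mean
r)⁻)²` separately. -/
def S_K8 : Prop := S_K1 → S_K2 → S_K3 → S_KM → S_KT → S_K4 → ∃ C ν₀ : ℝ, 1 ≤ C ∧ 1 ≤ ν₀ ∧
  ∀ {Ω : Type} [MeasurableSpace Ω] (μ : Measure Ω) (q : ℝ) (W : ℕ → ℕ → Ω → ℕ) (n m k i : ℕ),
  0 < q → q ≤ 1 / 16 → ν₀ ≤ n * Real.sqrt q →
  i * Real.sqrt q ≤ 2 * (n * Real.sqrt q) ^ (1 / 2 : ℝ) →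
  |(m : ℝ) - n| * Real.sqrt q ≤ 8 * (n * Real.sqrt q) ^ (1 / 2 : ℝ) →
  |(k : ℝ) - n| * Real.sqrt q ≤ 8 * (n * Real.sqrt q) ^ (1 / 2 : ℝ) → Bulk μ q W →
  ∫ ω, ((Tr W (m + i) k ω : ℝ) - Tr W m k ω - i * mean (Real.sqrt q)) ^ 2 ∂μ
    ≤ C * (n * Real.sqrt q) ^ (52 / 100 : ℝ) ∧
  ∫ ω, ((Tr W m (k + i) ω : ℝ) - Tr W m k ω - i * mean (Real.sqrt q)) ^ 2 ∂μ
    ≤ C * (n * Real.sqrt q) ^ (52 / 100 : ℝ)

/-- JOB K9.  Variance of the change under a shift of the box.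
Proof. `i, j ≤ N`.  `T₀₀ - T_{ij} = (T(N,N) - T(sh;N-i,N-j)) - (T(sh;N,N) - T(sh;N-i,N-j))` with
`sh = sh i j W`.  The first bracket has the law of `T(N,N) - T(N-i,N-j)` (`lRot` for `x=i,y=j` and
`x=y=0`, and `rot` preserves `Bulk`, `lOps`, `lLawB`), the second too (`shr i j W` is `Bulk`).  And
`T(N,N) - T(N-i,N-j) - (i+j) mean r` is a sum of a horizontal and a vertical increment of K8 (with
`n = N`, `m = N-i`, `k = N` and `m = N-i`, `k = N-j`), so its second moment is `≤ 4Cν^{0.52}`.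
`Var(X-Y) ≤ 2E(X-c)² + 2E(Y-c)²`. -/
def S_K9 : Prop := S_K1 → S_K2 → S_K3 → S_KM → S_KT → S_K4 → S_K8 → ∃ C ν₀ : ℝ, 1 ≤ C ∧ 1 ≤ ν₀ ∧
  ∀ {Ω : Type} [MeasurableSpace Ω] (μ : Measure Ω) (q : ℝ) (W : ℕ → ℕ → Ω → ℕ) (N i j : ℕ),
  0 < q → q ≤ 1 / 16 → ν₀ ≤ N * Real.sqrt q →
  i * Real.sqrt q ≤ (N * Real.sqrt q) ^ (1 / 2 : ℝ) →
  j * Real.sqrt q ≤ (N * Real.sqrt q) ^ (1 / 2 : ℝ) → Bulk μ q W →
  variance (fun ω => (Tr W N N ω : ℝ) - Tr (shr i j W) N N ω) μ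
    ≤ C * (N * Real.sqrt q) ^ (52 / 100 : ℝ)

/-- JOB KD.  Burke property along the path `(m,n+t) → (m,n) → (m+s,n)`.
Proof. By `lBurke` (for all large boxes `[0,m] × [0,n']`, spectators `I_{m+i}`, `W_{m+i,j}`) the family
`Einc m j` (`j ∈ ℕ`; independence concerns finite subfamilies), `I_{m+i}`, `W_{m+i,j}` is independent
geometric.  So `I' i = I (m+i)`, `J' j = Einc m j` for `j < n` and `Einc m (j+t)` for `j ≥ n`,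
`W' i j = W (m+i) j` with spectators `X j = Einc m (n+j)`, `j < t`, is a `Sys`.  For `j ≤ n`:
`G(m+i,j) = G(m,0) + G'(i,j)` (induction), so `Ninc n (m+i) = Ninc' n i`, and `lBurke` for the box
`[0,s] × [0,n]` of the primed system gives the claim (drop the right increments). -/
def S_KD : Prop := ∀ {Ω : Type} [MeasurableSpace Ω] (μ : Measure Ω) (q a : ℝ) (I J : ℕ → Ω → ℕ)
  (W : ℕ → ℕ → Ω → ℕ) (m n s t : ℕ), 0 < q → q < a → a < 1 → Sys0 μ q a I J W →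
  GeoFam μ (Sum.elim (fun _ : Fin s => a) (fun _ : Fin t => q / a))
    (Sum.elim (fun i : Fin s => Ninc I J W n (m + i)) (fun j : Fin t => Einc I J W m (n + j)))

/-- JOB KAC.  Anti-concentration of a difference of two sums.
Proof. `Z = (Σ X - s mean a) - (Σ Y - t mean b)`: `E Z = 0`, `σ := s a ≥ 1`, `E Z² ≥ s vari a ≥ σ`,
`E Z^4 ≤ 8 (E(ΣX-·)^4 + E(ΣY-·)^4) ≤ C σ²` by K1 (`t b ≤ 4σ`).  Hölder: `E|Z| ≥ (E Z²)^{3/2}/(E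
Z^4)^{1/2} ≥ c √σ`, so `E Z⁺ = E Z⁻ ≥ c√σ/2`, and `E Z⁺ ≤ (c/4)√σ + (E Z²)^{1/2} P(Z ≥ (c/4)√σ)^{1/2}`
with `E Z² ≤ C σ`. -/
def S_KAC : Prop := S_K1 → ∃ κ : ℝ, 0 < κ ∧ ∀ {Ω : Type} [MeasurableSpace Ω] (μ : Measure Ω)
  (a b : ℝ) (s t : ℕ) (X : Fin s → Ω → ℕ) (Y : Fin t → Ω → ℕ), 0 < a → a ≤ 1 / 2 → 0 ≤ b →
  b ≤ 1 / 2 → 1 ≤ s * a → t * b ≤ 4 * (s * a) →
  GeoFam μ (Sum.elim (fun _ : Fin s => a) (fun _ : Fin t => b)) (Sum.elim X Y) →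
  κ ≤ μ.real {ω | (s * mean a - t * mean b) + κ * Real.sqrt (s * a) ≤
    ∑ i, (X i ω : ℝ) - ∑ j, (Y j ω : ℝ)} ∧
  κ ≤ μ.real {ω | ∑ i, (X i ω : ℝ) - ∑ j, (Y j ω : ℝ) ≤
    (s * mean a - t * mean b) - κ * Real.sqrt (s * a)}

/-- JOB K10.  Lower bound for the variance of a difference.
Proof. Let `ν = N r`, `θ = ν^{-0.305}`, `s = M - N`, `t = N - K ≤ s`, `σ = s r ∈ [ν^{0.58}/4, 2ν^{0.58}]`,
`D = T(M,K) - T(N,N) = H - V`, `H = T(N+s,K) - T(N,K)`, `V = T(N,K+t) - T(N,K)`.  In the system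
`a₊ = r(1+θ)`: by `lSand` `H ≤ G₊(M,K) - G₊(N,K)` if the exit at `(N,K)` is horizontal
(`Gr zr J ≤ Gr I zr`), and, by the transposed `lSand` at `(N,N)`, `V ≥ G₊(N,N) - G₊(N,K)` if
`Gr zr J ≤ Gr I zr` at `(N,N)`.  So outside an event of probability `2ε` (K7 at `(N,K)`, `(N,N)`)
`D ≤ D₊ := G₊(M,K) - G₊(N,N) = Σ Ninc - Σ Einc` along the path of KD.  Similarly in the system
`a₋ = r/(1+θ)`: `D ≥ D₋ := G₋(M,K) - G₋(N,N)` outside `2ε` (K7 at `(M,K)` for `H`, at `(N,K)` for `V`).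
K7 applies for large `ν`: `|m-n| r ≤ 2σ ≤ 4ν^{0.58}`, `θ K r ≥ ν^{0.695}/2`, and
`(n r)^{-0.307} ≤ ν^{-0.305} ≤ (n r)^{-0.302}` for `n ∈ {N, K}`, `N/2 ≤ K ≤ N`.
With `m_± = s mean a_± - t mean(q/a_±)`, KAC gives `P(D₋ ≥ m₋ + κ√(s a₋)) ≥ κ`,
`P(D₊ ≤ m₊ - κ√(s a₊)) ≥ κ`, and `|m₊ - m₋| ≤ C s r θ ≤ C ν^{0.275}`, `√(s a_±) ≥ √(σ/2) ≥ ν^{0.29}/4`.
With `ε = κ/4` (laws of `D` transferred by `lLawB`): `P(D ≥ x) ≥ κ/2`, `P(D ≤ y) ≥ κ/2` with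
`x - y ≥ κ√σ/2`, hence `Var D ≥ c σ`. -/
def S_K10 : Prop := S_K1 → S_K2 → S_K3 → S_KM → S_K5 → S_K6 → S_K7 → S_KD → S_KAC → S_KT →
  ∃ c ν₀ : ℝ, 0 < c ∧ 1 ≤ ν₀ ∧ ∀ {Ω : Type} [MeasurableSpace Ω] (μ : Measure Ω) (q : ℝ)
  (W : ℕ → ℕ → Ω → ℕ) (N M K : ℕ), 0 < q → q ≤ 1 / 16 → ν₀ ≤ N * Real.sqrt q → K ≤ N → N ≤ M →
  N - K ≤ M - N → (N * Real.sqrt q) ^ (58 / 100 : ℝ) / 4 ≤ ((M : ℝ) - N) * Real.sqrt q →
  ((M : ℝ) - N) * Real.sqrt q ≤ 2 * (N * Real.sqrt q) ^ (58 / 100 : ℝ) → Bulk μ q W →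
  c * (N * Real.sqrt q) ^ (58 / 100 : ℝ) ≤
    variance (fun ω => (Tr W M K ω : ℝ) - Tr W N N ω) μ

/-- JOB K11.  Comparison of `T` for the weights and for their indicators.
Proof. `0 ≤ T(W) - T(ind W) ≤ Σ_{box} (W-1)⁺ =: Y` (a path sum; e.g. induction on the recursion, or
`lMono` and `W = ind W + (W-1)⁺`).  `E (W-1)⁺ = q²/(1-q) ≤ 2q²`, `E((W-1)⁺)² ≤ C q²`, independence:
`E Y² = Var Y + (E Y)² ≤ mn C q² + (2 m n q²)²`. -/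
def S_K11 : Prop := ∃ C : ℝ, 1 ≤ C ∧ ∀ {Ω : Type} [MeasurableSpace Ω] (μ : Measure Ω) (q : ℝ)
  (W : ℕ → ℕ → Ω → ℕ) (m n : ℕ), 0 < q → q ≤ 1 / 16 → Bulk μ q W →
  MemLp (fun ω => (Tr W m n ω : ℝ)) 2 μ ∧ MemLp (fun ω => (Tr (ind W) m n ω : ℝ)) 2 μ ∧
  ∫ ω, ((Tr W m n ω : ℝ) - Tr (ind W) m n ω) ^ 2 ∂μ ≤
    C * (m * n * q ^ 2) * (1 + m * n * q ^ 2)

/-- JOB KP.  Indicators of positive weights are independent Bernoulli `q`.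
Proof. `P(W ≥ 1) = 1 - (1-q) = q`; `∫ F = Σ_κ F κ P(indicators = κ)` and by independence
`P(indicators = κ) = wt q κ`. -/
def S_KP : Prop := ∀ {Ω : Type} [MeasurableSpace Ω] (μ : Measure Ω) (q : ℝ)
  (W : ℕ → ℕ → Ω → ℕ) (m n : ℕ) (F : (Fin m × Fin n → Bool) → ℝ), 0 < q → q < 1 → Bulk μ q W →
  ∫ ω, F (fun v => decide (1 ≤ W v.1 v.2 ω)) ∂μ = Ex q F

/-- JOB TL.  Last passage time of indicator weights and chains.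
Proof. Induction as in `lChain` (`Pool/Agent/W370/LP`), or: `T w m n` depends only on the weights in the
box; embed the `m × n` box in the square of side `max m n` with weights `0` outside (then
`T w m n = T w' N N` because `G` is monotone and the additional weights vanish), use `lChain`, and
note that for `0/1` weights the maximum of `Σ_{v∈S} w v` over chains `S` is the largest cardinality
of a chain of open points. -/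
def S_TL : Prop := ∀ (m n : ℕ) (w : ℕ → ℕ → ℕ),
  T (fun i j => if 1 ≤ w i j then 1 else 0) m n =
    Lc (fun v : Fin m × Fin n => decide (1 ≤ w v.1 v.2))

/-- JOB EA.  Essential points in a subset.
Proof. `p · rr p 0 w = Pr(κ w = 1, De w κ = 0)` (`De w` does not depend on `κ w`).  If `κ w = 1` and
`De w κ = 0` then `w` lies on every longest chain of `op κ` (DE (3)); fix one longest chain `C`: the
essential points in `A` form a subset of `C ∩ A`, a chain in `op κ ∩ A`. -/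
def S_EA : Prop := S_MC → S_DE → ∀ (ι : Type) [Fintype ι] [DecidableEq ι] [PartialOrder ι] (p : ℝ)
  (A : Finset ι), 0 < p → p < 1 →
  ∑ w ∈ A, p * rr p 0 w ≤ Ex p (fun κ => (mc (op κ ∩ A) : ℝ))

/-- JOB AL.  Averaging over shifts (algebra).
Proof. `Σ (b - b_{ij})² = Σ b² + Σ b_{ij}² - 2 Σ b b_{ij} = 2 Σ b² - 2 Σ b b_{ij}` (`b_{ij}` is the
shift of `b`, supported in `[0,N+s)²`).  Average over `i, j < s`: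
`2 Σ b² ≤ D + (2/s²) Σ_v b(v) Σ_{i,j<s} b_{ij}(v) ≤ D + 2 EN Es/s²`. -/
def S_AL : Prop := ∀ (N s : ℕ) (b : ℕ → ℕ → ℝ) (D EN Es : ℝ), 1 ≤ s →
  (∀ x y, 0 ≤ b x y) → (∀ x y, N ≤ x ∨ N ≤ y → b x y = 0) →
  (∀ i < s, ∀ j < s, ∑ x ∈ range (N + s), ∑ y ∈ range (N + s),
    (b x y - (if i ≤ x ∧ j ≤ y then b (x - i) (y - j) else 0)) ^ 2 ≤ D) →
  ∑ x ∈ range N, ∑ y ∈ range N, b x y ≤ EN → 0 ≤ Es →
  (∀ x y, ∑ i ∈ range s, ∑ j ∈ range s, (if i ≤ x ∧ j ≤ y then b (x - i) (y - j) else 0) ≤ Es) →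
  2 * ∑ x ∈ range N, ∑ y ∈ range N, (b x y) ^ 2 ≤ D + 2 * EN * Es / s ^ 2

/-- JOB BE.  Bessel inequality and covariances with one indicator.
Proof. (1) the variables `(ind W x y - q)/√(q(1-q))` are orthonormal and orthogonal to constants.
(2) By KP and TL the left side is `Ex q (Lc κ · κ_v) - Ex q Lc · q` for the Bernoulli field of the box
(`shr i j W` is `Bulk`, `v = (x-i, y-j)`), which is `q(1-q) Ex (DD Lc v) = q(1-q) rr q 0 v` by DE (3);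
for `(x,y)` outside the shifted box the two variables are independent. -/
def S_BE : Prop := S_MC → S_DE → S_KP → S_TL → S_K11 →
  (∀ {Ω : Type} [MeasurableSpace Ω] (μ : Measure Ω) (q : ℝ) (W : ℕ → ℕ → Ω → ℕ) (n : ℕ)
    (X : Ω → ℝ), 0 < q → q < 1 → Bulk μ q W → MemLp X 2 μ →
    ∑ x ∈ range n, ∑ y ∈ range n, (cov[X, fun ω => (ind W x y ω : ℝ); μ]) ^ 2 ≤
      q * (1 - q) * variance X μ) ∧
  (∀ {Ω : Type} [MeasurableSpace Ω] (μ : Measure Ω) (q : ℝ) (W : ℕ → ℕ → Ω → ℕ)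
    (N i j x y : ℕ), 0 < q → q < 1 → Bulk μ q W →
    cov[fun ω => (Tr (ind (shr i j W)) N N ω : ℝ), fun ω => (ind W x y ω : ℝ); μ] =
      (if h : i ≤ x ∧ x - i < N ∧ j ≤ y ∧ y - j < N then
        q * (1 - q) * rr q 0 ((⟨x - i, h.2.1⟩, ⟨y - j, h.2.2.2⟩) : Fin N × Fin N) else 0))

/-- JOB A2.  Sum of the squared influences.
Proof. Take a `Bulk` space (`lExist`), `ν = N r`, `s = ⌊√ν/r⌋ ≥ 1`, so `√ν/2 ≤ s r ≤ √ν`.  Let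
`b x y = q(1-q) rr q 0 (x,y)` on the box and `0` outside.  For `i, j < s`, BE with
`X = f₀₀ - f_{ij}`, `f_{ij} = Tr (ind (shr i j W)) N N`, gives the hypothesis of AL with
`D = q(1-q) max Var(f₀₀ - f_{ij})` and `Var(f₀₀-f_{ij}) ≤ 2 Var(T₀₀ - T_{ij}) + 2 E((T-f)₀₀ -
(T-f)_{ij})² ≤ 2Cν^{0.52} + 8C N²q²(1+N²q²) ≤ C'ν^{0.52}` by K9, K11 (`N²q² = ν^4/N² ≤ 1`).  By EA with
`A` everything, TL, KP: `EN = (1-q) E T(N,N) ≤ 2 N mean r ≤ (8/3) ν` (`f ≤ T`, KT).  For fixed `(x,y)`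
the sum over `i, j < s` runs over the points of an `s × s` box intersected with `[0,N)²`: by EA it is at
most `(1-q)` times the mean longest chain in that box, at most `E T(s,s) ≤ 2 s mean r ≤ (8/3) s r`
(the chain in a sub-box: use the law of the shifted environment, TL, KP; or monotonicity in the box).
So `2 (q(1-q))² Σ rr² ≤ q(1-q) C'ν^{0.52} + 2 (1-q)² (8/3)² ν (s r)/s²`; divide by `2q(1-q)²`:
`q Σ rr² ≤ C'ν^{0.52} + (64/9) ν/(s r) ≤ C'' ν^{0.52}` (`s r/(q s²) = 1/(s r)`). -/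
def S_A2 : Prop := S_MC → S_DE → S_K1 → S_KT → S_K11 → S_KP → S_TL → S_EA → S_AL → S_BE →
  (∃ C ν₀ : ℝ, 1 ≤ C ∧ 1 ≤ ν₀ ∧
  ∀ {Ω : Type} [MeasurableSpace Ω] (μ : Measure Ω) (q : ℝ) (W : ℕ → ℕ → Ω → ℕ) (N i j : ℕ),
  0 < q → q ≤ 1 / 16 → ν₀ ≤ N * Real.sqrt q →
  i * Real.sqrt q ≤ (N * Real.sqrt q) ^ (1 / 2 : ℝ) →
  j * Real.sqrt q ≤ (N * Real.sqrt q) ^ (1 / 2 : ℝ) → Bulk μ q W →
  variance (fun ω => (Tr W N N ω : ℝ) - Tr (shr i j W) N N ω) μ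
    ≤ C * (N * Real.sqrt q) ^ (52 / 100 : ℝ)) →
  ∃ C ν₀ : ℝ, 1 ≤ C ∧ 1 ≤ ν₀ ∧ ∀ (q : ℝ) (N : ℕ), 0 < q → q ≤ 1 / 16 → ν₀ ≤ N * Real.sqrt q →
  (N * Real.sqrt q) ^ 4 ≤ (N : ℝ) ^ 2 →
  q * ∑ v : Fin N × Fin N, (rr q 0 v) ^ 2 ≤ C * (N * Real.sqrt q) ^ (52 / 100 : ℝ)

/-- JOB A1.  Lower bound for the variances of the longest chains.
Proof. In a `Bulk` space (`lExist`) the hypothesis (conclusion of K10) gives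
`cν^{0.58} ≤ Var(T(M,K)-T(N,N)) ≤ 2 Var T(M,K) + 2 Var T(N,N)`, and `Var T ≤ 2 Var f + 2 E(T-f)²` with
`f = Tr (ind W)`, `E(T-f)² ≤ C` by K11 (`M K q² ≤ 2N²q² = 2ν^4/N² ≤ 2`), `Var f = Vr q Lc` by KP, TL
(applied to `f` and `f²`).  Absorb the constant for `ν ≥ ν₀`. -/
def S_A1 : Prop := S_K11 → S_KP → S_TL →
  (∃ c ν₀ : ℝ, 0 < c ∧ 1 ≤ ν₀ ∧ ∀ {Ω : Type} [MeasurableSpace Ω] (μ : Measure Ω) (q : ℝ)
  (W : ℕ → ℕ → Ω → ℕ) (N M K : ℕ), 0 < q → q ≤ 1 / 16 → ν₀ ≤ N * Real.sqrt q → K ≤ N → N ≤ M →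
  N - K ≤ M - N → (N * Real.sqrt q) ^ (58 / 100 : ℝ) / 4 ≤ ((M : ℝ) - N) * Real.sqrt q →
  ((M : ℝ) - N) * Real.sqrt q ≤ 2 * (N * Real.sqrt q) ^ (58 / 100 : ℝ) → Bulk μ q W →
  c * (N * Real.sqrt q) ^ (58 / 100 : ℝ) ≤
    variance (fun ω => (Tr W M K ω : ℝ) - Tr W N N ω) μ) →
  ∃ c ν₀ : ℝ, 0 < c ∧ 1 ≤ ν₀ ∧ ∀ (q : ℝ) (N M K : ℕ), 0 < q → q ≤ 1 / 16 →
  ν₀ ≤ N * Real.sqrt q → (N * Real.sqrt q) ^ 4 ≤ (N : ℝ) ^ 2 → K ≤ N → N ≤ M → M ≤ 2 * N →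
  N - K ≤ M - N → (N * Real.sqrt q) ^ (58 / 100 : ℝ) / 4 ≤ ((M : ℝ) - N) * Real.sqrt q →
  ((M : ℝ) - N) * Real.sqrt q ≤ 2 * (N * Real.sqrt q) ^ (58 / 100 : ℝ) →
  c * (N * Real.sqrt q) ^ (58 / 100 : ℝ) ≤
    Vr q (fun κ : Fin M × Fin K → Bool => (Lc κ : ℝ)) +
    Vr q (fun κ : Fin N × Fin N → Bool => (Lc κ : ℝ))

end Pool.Agent.Q295.PN
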