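import Pool.Agent.Q295.PN.AllA
import Pool.Agent.Q295.PN.StmK
import Pool.Agent.Q166.PN.K1
import Pool.Agent.Q130.PN.K2
import Pool.Agent.Q198.PN.Km
import Pool.Agent.Q162.PN.A1
import Pool.Agent.Q130.PN.K3
import Pool.Agent.Q162.PN.Kt
import Pool.Agent.Q166.PN.K4
import Pool.Agent.Q198.PN.K5
import Pool.Agent.Q166.PN.K6
import Pool.Agent.Q130.PN.K7
import Pool.Agent.Q193.PN.K8
import Pool.Agent.Q193.PN.K9
import Pool.Agent.Q130.PN.KD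
import Pool.Agent.Q162.PN.Kac
import Pool.Agent.Q25.PN.K11
import Pool.Agent.Q25.PN.Tl
import Pool.Agent.Q25.PN.Ea
import Pool.Agent.Q25.PN.Al
import Pool.Agent.Q25.PN.Be
import Pool.Agent.Q285.PN.D0
import Pool.Agent.Q187.PN.D2
import Pool.Agent.Q234.PN.D3
import Pool.Agent.Q38.PN.D4
import Pool.Agent.Q285.PN.D5a
import Pool.Agent.Q187.PN.D5b
import Pool.Agent.Q285.PN.D5c
import Pool.Agent.Q234.PN.D5
import Pool.Agent.Q275.PN.A3

/-!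
# Project PN: assembly of the geometric part and of the transfer
-/

set_option autoImplicit false

namespace Pool.Agent.Q295.PN

open Finset

theorem aK1 : S_K1 := Pool.Agent.Q166.PN.K1.k1
theorem aK2 : S_K2 := Pool.Agent.Q130.PN.k2
theorem aK3 : S_K3 := Pool.Agent.Q130.PN.k3
theorem aKM : S_KM := Pool.Agent.Q198.PN.km
theorem aKT : S_KT := Pool.Agent.Q162.PN.kt
theorem aK4 : S_K4 := Pool.Agent.Q166.PN.K4.k4
theorem aK5 : S_K5 := Pool.Agent.Q198.PN.k5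
theorem aK6 : S_K6 := Pool.Agent.Q166.PN.K6.k6
theorem aK7 : S_K7 := Pool.Agent.Q130.PN.K7.k7
theorem aK8 : S_K8 := Pool.Agent.Q193.PN.k8
theorem aK9 : S_K9 := Pool.Agent.Q193.PN.k9
theorem aKD : S_KD := Pool.Agent.Q130.PN.KD.kd
theorem aKAC : S_KAC := Pool.Agent.Q162.PN.kac
theorem aK11 : S_K11 := Pool.Agent.Q25.PN.k11
theorem aTL : S_TL := Pool.Agent.Q25.PN.tl
theorem aEA : S_EA := Pool.Agent.Q25.PN.ea
theorem aAL : S_AL := Pool.Agent.Q25.PN.al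
theorem aBE : S_BE := Pool.Agent.Q25.PN.be

theorem aD4 : CD4 := Pool.Agent.Q38.PN.d4 Pool.Agent.Q285.PN.d0 Pool.Agent.Q187.PN.d2
  Pool.Agent.Q234.PN.d3

theorem aD5 : CD5 := Pool.Agent.Q234.PN.D5.d5 Pool.Agent.Q285.PN.d0 Pool.Agent.Q285.PN.d5a
  Pool.Agent.Q187.PN.d5b Pool.Agent.Q285.PN.d5c

/-- The lower bound for the variance, from K10 and KP. -/
theorem aA3 (k10 : S_K10) (kp : S_KP) : CA3 :=
  Pool.Agent.Q275.PN.a3 (Pool.Agent.Q162.PN.a1 aK11 kp aTL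
    (k10 aK1 aK2 aK3 aKM aK5 aK6 aK7 aKD aKAC aKT))

/-- The covariance on the grid, from A2, KP and FN. -/
theorem aFN (a2 : S_A2) (kp : S_KP) (fn : S_FN) : CFN :=
  fn allBC Pool.Agent.Q237.PL.Gv.gv Pool.Agent.Q237.PL.Gl.gl
    (a2 aMC aDE aK1 aKT aK11 kp aTL aEA aAL aBE (aK9 aK1 aK2 aK3 aKM aKT aK4 aK8))

/-- The final statement. -/
theorem all (k10 : S_K10) (kp : S_KP) (a2 : S_A2) (fn : S_FN) (t : NNReal) (ht : 0 < t)
    (ht1 : t ≤ 1) (ε : ℝ) (hε : 0 < ε) :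
    ∃ n₀ : ℕ, ∀ n : ℕ, n₀ ≤ n → 1 ≤ n → ∀ (Ω : Type) [MeasurableSpace Ω]
      (P : MeasureTheory.Measure Ω)
      (C : Ω → ℕ × ℕ) (Z : ℕ → Ω → ((ℝ × ℝ) × ℝ) × (ℝ × ℝ)), Setting n t P C Z →
      |ProbabilityTheory.covariance (fun ω => (LL (eta (C ω) (fun i => Z i ω)) : ℝ))
          (fun ω => (LL (etat t (C ω) (fun i => Z i ω)) : ℝ)) P /
        Real.sqrt (ProbabilityTheory.variance (fun ω => (LL (eta (C ω) (fun i => Z i ω)) : ℝ)) P *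
          ProbabilityTheory.variance (fun ω => (LL (etat t (C ω) (fun i => Z i ω)) : ℝ)) P)| < ε :=
  final Pool.Agent.Q275.PN.d1 Pool.Agent.Q190.PN.fq aD4 aD5 (aFN a2 kp fn) (aA3 k10 kp)
    Pool.Agent.Q275.PN.fc t ht ht1 ε hε

end Pool.Agent.Q295.PN
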