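import Mathlib

/-!
# Project PN: noise sensitivity of planar Poisson last passage percolation (S19391)

Definitions of the finite part: Bernoulli fields on a finite set `ι`, averages over the coordinates
outside `V`, the noise function `SS`, longest chains of the open points of a finite partially
ordered set.
-/

set_option autoImplicit false

namespace Pool.Agent.Q295.PN

open Finset

section bern

variable {ι : Type} [Fintype ι] [DecidableEq ι]

/-- Weight of a configuration under independent Bernoulli `p` variables. -/
noncomputable def wt (p : ℝ) (κ : ι → Bool) : ℝ := ∏ i, (if κ i = true then p else 1 - p)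

/-- Expectation. -/
noncomputable def Ex (p : ℝ) (f : (ι → Bool) → ℝ) : ℝ := ∑ κ, wt p κ * f κ

/-- Probability. -/
noncomputable def Pr (p : ℝ) (E : (ι → Bool) → Prop) : ℝ :=
  open Classical in Ex p (fun κ => if E κ then 1 else 0)

/-- Variance. -/
noncomputable def Vr (p : ℝ) (f : (ι → Bool) → ℝ) : ℝ := Ex p (fun κ => (f κ) ^ 2) - (Ex p f) ^ 2

/-- The coordinates in `V` are those of `κ`, the others those of `κ'`. -/
def mix (V : Finset ι) (κ κ' : ι → Bool) : ι → Bool := fun i => if i ∈ V then κ i else κ' i

/-- Average over the coordinates outside `V`. -/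
noncomputable def Av (p : ℝ) (V : Finset ι) (f : (ι → Bool) → ℝ) (κ : ι → Bool) : ℝ :=
  Ex p (fun κ' => f (mix V κ κ'))

/-- Second moment of the average. -/
noncomputable def QQ (p : ℝ) (f : (ι → Bool) → ℝ) (V : Finset ι) : ℝ :=
  Ex p (fun κ => (Av p V f κ) ^ 2)

/-- Noise function: `E f(κ) f(κ')` if every coordinate is kept with probability `s` and
resampled otherwise. -/
noncomputable def SS (p : ℝ) (f : (ι → Bool) → ℝ) (s : ℝ) : ℝ :=
  ∑ V : Finset ι, s ^ V.card * (1 - s) ^ (Fintype.card ι - V.card) * QQ p f V

/-- Discrete derivative in the direction `y`. -/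
def DD (f : (ι → Bool) → ℝ) (y : ι) (κ : ι → Bool) : ℝ :=
  f (Function.update κ y true) - f (Function.update κ y false)

/-- Fourier coefficient. -/
noncomputable def fh (p : ℝ) (f : (ι → Bool) → ℝ) (T : Finset ι) : ℝ :=
  Ex p (fun κ => f κ * ∏ i ∈ T, ((if κ i = true then (1 : ℝ) else 0) - p)) /
    (Real.sqrt (p * (1 - p))) ^ T.card

/-- One step of a kernel. -/
noncomputable def ak (k : ι → ι → ℝ) (f : ι → ℝ) (x : ι) : ℝ := ∑ z, k x z * f z

/-- `i` steps of a kernel. -/
noncomputable def itk (k : ι → ι → ℝ) (f : ι → ℝ) : ℕ → ι → ℝ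
  | 0 => f
  | i + 1 => ak k (itk k f i)

end bern

section chains

variable {ι : Type} [Fintype ι] [DecidableEq ι] [PartialOrder ι]

/-- Largest cardinality of a chain in `A`. -/
noncomputable def mc (A : Finset ι) : ℕ :=
  open Classical in
  (A.powerset.filter (fun C : Finset ι => IsChain (· ≤ ·) (C : Set ι))).sup Finset.card

/-- The open points. -/
def op (κ : ι → Bool) : Finset ι := univ.filter (fun i => κ i = true)

/-- Longest chain of open points. -/
noncomputable def Lc (κ : ι → Bool) : ℕ := mc (op κ)

/-- Longest chain of open points above `x`. -/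
noncomputable def Fw (x : ι) (κ : ι → Bool) : ℕ :=
  open Classical in mc ((op κ).filter (fun y => x < y))

/-- Longest chain of open points below `x`. -/
noncomputable def Bw (x : ι) (κ : ι → Bool) : ℕ :=
  open Classical in mc ((op κ).filter (fun y => y < x))

/-- The deficit of `x`: longest chain without `x` minus longest chain through `x` (`x` not
counted). -/
noncomputable def De (x : ι) (κ : ι → Bool) : ℕ := mc ((op κ).erase x) - (Fw x κ + Bw x κ)

/-- Distribution of the deficit. -/
noncomputable def rr (p : ℝ) (j : ℕ) (x : ι) : ℝ := Pr p (fun κ => De x κ = j)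

/-- Number of points strictly between `x` and `z`. -/
noncomputable def bt (x z : ι) : ℕ :=
  open Classical in (univ.filter (fun w => x < w ∧ w < z)).card

/-- Kernel of short steps. -/
noncomputable def kk (p c : ℝ) (x z : ι) : ℝ :=
  open Classical in if x < z ∧ p * (bt x z : ℝ) < c then p else 0

/-- Sum over the chains `x < z_1 < … < z_i` of open points with short steps of `g z_i κ_0`, where
`κ_0` is `κ` with `z_1, …, z_i` closed. -/
noncomputable def psi (p c : ℝ) (g : ι → (ι → Bool) → ℝ) : ℕ → ι → (ι → Bool) → ℝ
  | 0 => g
  | i + 1 => fun x κ =>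
      open Classical in ∑ z, if x < z ∧ p * (bt x z : ℝ) < c ∧ κ z = true then
        psi p c g i z (Function.update κ z false) else 0

/-- Sum over the points above `y` at a short step, with deficit `0`. -/
noncomputable def gT (p T : ℝ) (y : ι) (κ : ι → Bool) : ℝ :=
  open Classical in ∑ w, if y < w ∧ p * (bt y w : ℝ) < T ∧ De w κ = 0 then 1 else 0

/-- Indicator that the deficit is at most one. -/
noncomputable def g1 (y : ι) (κ : ι → Bool) : ℝ :=
  open Classical in if De y κ ≤ 1 then 1 else 0

/-- There are two successive points, the upper one open, the lower one open or `x`, with a large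
empty interval between them. -/
def Gap (p T : ℝ) (x : ι) (κ : ι → Bool) : Prop :=
  ∃ z z' : ι, (z = x ∨ κ z = true) ∧ κ z' = true ∧ z < z' ∧ T ≤ p * (bt z z' : ℝ) ∧
    ∀ w, z < w → w < z' → κ w = false

/-- `w` is an open point above `x` which lies on all longest chains above `x`, among the first `M`
points of the chain. -/
def Ess (M : ℕ) (x w : ι) (κ : ι → Bool) : Prop :=
  x < w ∧ κ w = true ∧ Fw x (Function.update κ w false) + 1 = Fw x κ ∧ Fw x κ ≤ Fw w κ + M

end chains

end Pool.Agent.Q295.PN
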