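import Pool.Agent.Q295.PN.StmD

/-!
# Project PN: final deduction from the grid statements
-/

set_option autoImplicit false

namespace Pool.Agent.Q295.PN

open MeasureTheory ProbabilityTheory Finset Filter

/-- Conclusion of D4. -/
def CD4 : Prop := ∀ (n M K : ℕ) [NeZero M] [NeZero K] (t : NNReal)
  {Ω : Type} [MeasurableSpace Ω] (P : Measure Ω) (C : Ω → ℕ × ℕ)
  (Z : ℕ → Ω → ((ℝ × ℝ) × ℝ) × (ℝ × ℝ)), 1 ≤ n → t ≤ 1 → SettingM n t P C Z →
  (∀ F : (Fin M × Fin K → Bool) → ℝ,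
    ∫ ω, F (kap n M K (C ω) (fun i => Z i ω)) * F (kapt t n M K (C ω) (fun i => Z i ω)) ∂P =
      SS (pp n M K) F (rho t n M K) ∧
    ∫ ω, F (kap n M K (C ω) (fun i => Z i ω)) ∂P = Ex (pp n M K) F ∧
    ∫ ω, F (kapt t n M K (C ω) (fun i => Z i ω)) ∂P = Ex (pp n M K) F) ∧
  (∀ F : (Fin M × Fin K → Bool) → ℝ,
    Measurable (fun ω => F (kap n M K (C ω) (fun i => Z i ω))) ∧
    Measurable (fun ω => F (kapt t n M K (C ω) (fun i => Z i ω)))) ∧
  0 ≤ rho t n M K ∧ rho t n M K ≤ 1 - t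

/-- Conclusion of D5. -/
def CD5 : Prop := ∀ (n : ℕ) (t : NNReal), 1 ≤ n → t ≤ 1 →
  ∃ N₀ : ℕ, ∀ (M K : ℕ) [NeZero M] [NeZero K], N₀ ≤ M → N₀ ≤ K → ∀ {Ω : Type}
  [MeasurableSpace Ω] (P : Measure Ω) (C : Ω → ℕ × ℕ) (Z : ℕ → Ω → ((ℝ × ℝ) × ℝ) × (ℝ × ℝ)),
  SettingM n t P C Z →
  MemLp (fun ω => (LL (eta (C ω) (fun i => Z i ω)) : ℝ)) 2 P ∧
  MemLp (fun ω => (LL (etat t (C ω) (fun i => Z i ω)) : ℝ)) 2 P ∧
  ∫ ω, ((LL (eta (C ω) (fun i => Z i ω)) : ℝ) - Lc (kap n M K (C ω) (fun i => Z i ω))) ^ 2 ∂P ≤ 1 ∧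
  ∫ ω, ((LL (etat t (C ω) (fun i => Z i ω)) : ℝ) -
    Lc (kapt t n M K (C ω) (fun i => Z i ω))) ^ 2 ∂P ≤ 1

/-- Conclusion of FN. -/
def CFN : Prop := ∀ s δ : ℝ, 0 ≤ s → s < 1 → 0 < δ → ∃ n₀ : ℕ, 1 ≤ n₀ ∧ ∀ n ≥ n₀, ∃ N₀ : ℕ,
  ∀ N ≥ N₀, ∀ ρ : ℝ, 0 ≤ ρ → ρ ≤ s →
  0 ≤ SS (pp n N N) (fun κ : Fin N × Fin N → Bool => (Lc κ : ℝ)) ρ -
    SS (pp n N N) (fun κ : Fin N × Fin N → Bool => (Lc κ : ℝ)) 0 ∧
  SS (pp n N N) (fun κ : Fin N × Fin N → Bool => (Lc κ : ℝ)) ρ -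
    SS (pp n N N) (fun κ : Fin N × Fin N → Bool => (Lc κ : ℝ)) 0 ≤
    (n : ℝ) ^ (56 / 100 : ℝ) + δ * Vr (pp n N N) (fun κ : Fin N × Fin N → Bool => (Lc κ : ℝ))

/-- Conclusion of A3. -/
def CA3 : Prop := ∃ c : ℝ, 0 < c ∧ ∃ n₀ : ℕ, 1 ≤ n₀ ∧ ∀ n ≥ n₀, ∀ N₀ : ℕ, ∃ N M K : ℕ,
  N₀ ≤ N ∧ N₀ ≤ M ∧ N₀ ≤ K ∧ 1 ≤ K ∧ pp n M K = pp n N N ∧
  c * (n : ℝ) ^ (58 / 100 : ℝ) ≤
    Vr (pp n N N) (fun κ : Fin M × Fin K → Bool => (Lc κ : ℝ)) +
    Vr (pp n N N) (fun κ : Fin N × Fin N → Bool => (Lc κ : ℝ))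

lemma SS_zero {ι : Type} [Fintype ι] [DecidableEq ι] (p : ℝ) (f : (ι → Bool) → ℝ) :
    SS p f 0 = QQ p f ∅ := by
  unfold SS
  rw [Finset.sum_eq_single ∅]
  · simp
  · intro V _ hV
    have : V.card ≠ 0 := by
      rw [Ne, Finset.card_eq_zero]; exact hV
    rw [zero_pow this]; ring
  · intro h; exact absurd (Finset.mem_univ _) h

/-- Asymptotics. -/
lemma asym (c ε : ℝ) (hc : 0 < c) (hε : 0 < ε) : ∀ᶠ n : ℕ in atTop,
    ∀ v : ℝ, c * (n : ℝ) ^ (58 / 100 : ℝ) ≤ 3 * v + 8 →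
    4 ≤ v ∧ 4 * (n : ℝ) ^ (56 / 100 : ℝ) / v + 16 / Real.sqrt v ≤ ε := by
  have h1 : Tendsto (fun n : ℕ => (n : ℝ) ^ (58 / 100 : ℝ)) atTop atTop :=
    (tendsto_rpow_atTop (by norm_num)).comp tendsto_natCast_atTop_atTop
  have h2 : Tendsto (fun n : ℕ => (n : ℝ) ^ (-(2 / 100) : ℝ)) atTop (nhds 0) :=
    (tendsto_rpow_neg_atTop (by norm_num)).comp tendsto_natCast_atTop_atTop
  have h3 : Tendsto (fun n : ℕ => c / 6 * (n : ℝ) ^ (58 / 100 : ℝ)) atTop atTop :=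
    h1.const_mul_atTop (by positivity)
  have h4 : ∀ᶠ n : ℕ in atTop, 4 * 6 / c * (n : ℝ) ^ (-(2 / 100) : ℝ) ≤ ε / 2 := by
    have : Tendsto (fun n : ℕ => 4 * 6 / c * (n : ℝ) ^ (-(2 / 100) : ℝ)) atTop (nhds 0) := by
      simpa using h2.const_mul (4 * 6 / c)
    exact (this.eventually (ge_mem_nhds (by positivity : (0 : ℝ) < ε / 2)))
  filter_upwards [h3.eventually_ge_atTop 4, h3.eventually_ge_atTop (8 / 3),
    h3.eventually_ge_atTop ((32 / ε) ^ 2), h4, eventually_ge_atTop 1] with n a1 a2 a3 a4 a5 v hv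
  have hn : (0 : ℝ) < n := by exact_mod_cast a5
  have hv1 : c / 6 * (n : ℝ) ^ (58 / 100 : ℝ) ≤ v := by nlinarith
  have hvpos : 0 < v := by linarith
  refine ⟨by linarith, ?_⟩
  have e1 : 4 * (n : ℝ) ^ (56 / 100 : ℝ) / v ≤ ε / 2 := by
    refine le_trans ?_ a4
    rw [div_le_iff₀ hvpos]
    have : (n : ℝ) ^ (56 / 100 : ℝ) = (n : ℝ) ^ (-(2 / 100) : ℝ) * (n : ℝ) ^ (58 / 100 : ℝ) := by
      rw [← Real.rpow_add hn]; norm_num
    rw [this]
    have hp : 0 < (n : ℝ) ^ (-(2 / 100) : ℝ) := Real.rpow_pos_of_pos hn _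
    calc 4 * ((n : ℝ) ^ (-(2 / 100) : ℝ) * (n : ℝ) ^ (58 / 100 : ℝ))
        = 4 * 6 / c * (n : ℝ) ^ (-(2 / 100) : ℝ) * (c / 6 * (n : ℝ) ^ (58 / 100 : ℝ)) := by
          field_simp
      _ ≤ _ := mul_le_mul_of_nonneg_left hv1 (by positivity)
  have e2 : 16 / Real.sqrt v ≤ ε / 2 := by
    have : 32 / ε ≤ Real.sqrt v := by
      apply Real.le_sqrt_of_sq_le
      linarith
    have hs : 0 < Real.sqrt v := Real.sqrt_pos.2 hvpos
    rw [div_le_iff₀ hs]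
    have := mul_le_mul_of_nonneg_left this hε.le
    have h5 : ε * (32 / ε) = 32 := by field_simp
    nlinarith
  linarith

/-- The final statement in terms of `LL`. -/
theorem final (hD1 : S_D1) (hFQ : S_FQ) (hD4 : CD4) (hD5 : CD5) (hFN : CFN) (hA3 : CA3)
    (hFC : S_FC) (t : NNReal) (ht : 0 < t) (ht1 : t ≤ 1) (ε : ℝ) (hε : 0 < ε) :
    ∃ n₀ : ℕ, ∀ n : ℕ, n₀ ≤ n → 1 ≤ n → ∀ (Ω : Type) [MeasurableSpace Ω] (P : Measure Ω)
      (C : Ω → ℕ × ℕ) (Z : ℕ → Ω → ((ℝ × ℝ) × ℝ) × (ℝ × ℝ)), Setting n t P C Z →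
      |covariance (fun ω => (LL (eta (C ω) (fun i => Z i ω)) : ℝ))
          (fun ω => (LL (etat t (C ω) (fun i => Z i ω)) : ℝ)) P /
        Real.sqrt (variance (fun ω => (LL (eta (C ω) (fun i => Z i ω)) : ℝ)) P *
          variance (fun ω => (LL (etat t (C ω) (fun i => Z i ω)) : ℝ)) P)| < ε := by
  have ht' : (0 : ℝ) < t := by exact_mod_cast ht
  have ht1' : (t : ℝ) ≤ 1 := by exact_mod_cast ht1
  obtain ⟨n₁, hn₁, H1⟩ := hFN (1 - t) (ε / 16) (by linarith) (by linarith) (by positivity)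
  obtain ⟨c, hc, n₂, hn₂, H2⟩ := hA3
  obtain ⟨n₃, H3⟩ := (eventually_atTop.1 (asym c (ε / 2) hc (by positivity)))
  refine ⟨max n₁ (max n₂ n₃), ?_⟩
  intro n hn h1n Ω _ P C Z hS
  obtain ⟨C', Z', hM, hae⟩ := hD1 n t P C Z h1n hS
  have hP : IsProbabilityMeasure P := hM.prob
  have ae1 : (fun ω => (LL (eta (C ω) (fun i => Z i ω)) : ℝ)) =ᵐ[P]
      (fun ω => (LL (eta (C' ω) (fun i => Z' i ω)) : ℝ)) := by
    filter_upwards [hae] with ω h
    have : (fun i => Z i ω) = (fun i => Z' i ω) := funext h.2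
    rw [h.1, this]
  have ae2 : (fun ω => (LL (etat t (C ω) (fun i => Z i ω)) : ℝ)) =ᵐ[P]
      (fun ω => (LL (etat t (C' ω) (fun i => Z' i ω)) : ℝ)) := by
    filter_upwards [hae] with ω h
    have : (fun i => Z i ω) = (fun i => Z' i ω) := funext h.2
    rw [h.1, this]
  have hcov : covariance (fun ω => (LL (eta (C ω) (fun i => Z i ω)) : ℝ))
      (fun ω => (LL (etat t (C ω) (fun i => Z i ω)) : ℝ)) P =
      covariance (fun ω => (LL (eta (C' ω) (fun i => Z' i ω)) : ℝ))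
      (fun ω => (LL (etat t (C' ω) (fun i => Z' i ω)) : ℝ)) P := by
    unfold covariance
    rw [integral_congr_ae ae1, integral_congr_ae ae2]
    apply integral_congr_ae
    filter_upwards [ae1, ae2] with ω a b
    rw [a, b]
  rw [hcov, variance_congr ae1, variance_congr ae2]
  have hn1 : n₁ ≤ n := le_trans (le_max_left _ _) hn
  have hn2 : n₂ ≤ n := le_trans (le_trans (le_max_left _ _) (le_max_right _ _)) hn
  have hn3 : n₃ ≤ n := le_trans (le_trans (le_max_right _ _) (le_max_right _ _)) hn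
  obtain ⟨N₁, H1⟩ := H1 n hn1
  obtain ⟨N₂, H5⟩ := hD5 n t h1n ht1
  obtain ⟨N, M, K, hN, hM', hK, hK1, hpp, hV⟩ := H2 n hn2 (max 1 (max N₁ N₂))
  have : NeZero N := ⟨by have := le_trans (le_max_left _ _) hN; omega⟩
  have : NeZero M := ⟨by have := le_trans (le_max_left _ _) hM'; omega⟩
  have : NeZero K := ⟨by omega⟩
  have hN1 : N₁ ≤ N := le_trans (le_trans (le_max_left _ _) (le_max_right _ _)) hN
  have hN2 : N₂ ≤ N := le_trans (le_trans (le_max_right _ _) (le_max_right _ _)) hN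
  have hM2 : N₂ ≤ M := le_trans (le_trans (le_max_right _ _) (le_max_right _ _)) hM'
  have hK2 : N₂ ≤ K := le_trans (le_trans (le_max_right _ _) (le_max_right _ _)) hK
  obtain ⟨mX, mY, dX, dY⟩ := H5 N N hN2 hN2 P C' Z' hM
  obtain ⟨_, _, dX2, _⟩ := H5 M K hM2 hK2 P C' Z' hM
  obtain ⟨I1, I2, I3, I4⟩ := hD4 n N N t P C' Z' h1n ht1 hM
  obtain ⟨J1, J2, _, _⟩ := hD4 n M K t P C' Z' h1n ht1 hM
  set X := fun ω => (LL (eta (C' ω) (fun i => Z' i ω)) : ℝ) with hXd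
  set Y := fun ω => (LL (etat t (C' ω) (fun i => Z' i ω)) : ℝ) with hYd
  set X' := fun ω => (Lc (kap n N N (C' ω) (fun i => Z' i ω)) : ℝ) with hX'd
  set Y' := fun ω => (Lc (kapt t n N N (C' ω) (fun i => Z' i ω)) : ℝ) with hY'd
  set X'' := fun ω => (Lc (kap n M K (C' ω) (fun i => Z' i ω)) : ℝ) with hX''d
  -- boundedness of the grid functions
  have bdd : ∀ (M K : ℕ) (κ : Fin M × Fin K → Bool), ‖(Lc κ : ℝ)‖ ≤ (M * K : ℕ) := by
    intro M K κ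
    rw [Real.norm_of_nonneg (by positivity)]
    have : Lc κ ≤ M * K := by
      unfold Lc mc
      apply Finset.sup_le
      intro C hC
      calc C.card ≤ (univ : Finset (Fin M × Fin K)).card := Finset.card_le_univ _
        _ = M * K := by simp
    exact_mod_cast this
  have mX' : MemLp X' 2 P :=
    MemLp.of_bound ((I2 (fun κ => (Lc κ : ℝ))).1.aestronglyMeasurable) (N * N : ℕ)
      (Eventually.of_forall fun ω => bdd N N _)
  have mY' : MemLp Y' 2 P :=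
    MemLp.of_bound ((I2 (fun κ => (Lc κ : ℝ))).2.aestronglyMeasurable) (N * N : ℕ)
      (Eventually.of_forall fun ω => bdd N N _)
  have mX'' : MemLp X'' 2 P :=
    MemLp.of_bound ((J2 (fun κ => (Lc κ : ℝ))).1.aestronglyMeasurable) (M * K : ℕ)
      (Eventually.of_forall fun ω => bdd M K _)
  have vX' : variance X' P = Vr (pp n N N) (fun κ : Fin N × Fin N → Bool => (Lc κ : ℝ)) := by
    rw [variance_eq_sub mX']
    unfold Vr
    rw [← (I1 (fun κ => (Lc κ : ℝ))).2.1, ← (I1 (fun κ => (Lc κ : ℝ) ^ 2)).2.1]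
    rfl
  have vY' : variance Y' P = Vr (pp n N N) (fun κ : Fin N × Fin N → Bool => (Lc κ : ℝ)) := by
    rw [variance_eq_sub mY']
    unfold Vr
    rw [← (I1 (fun κ => (Lc κ : ℝ))).2.2, ← (I1 (fun κ => (Lc κ : ℝ) ^ 2)).2.2]
    rfl
  have vX'' : variance X'' P = Vr (pp n N N) (fun κ : Fin M × Fin K → Bool => (Lc κ : ℝ)) := by
    rw [variance_eq_sub mX'', ← hpp]
    unfold Vr
    rw [← (J1 (fun κ => (Lc κ : ℝ))).2.1, ← (J1 (fun κ => (Lc κ : ℝ) ^ 2)).2.1]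
    rfl
  have hp01 : 0 < pp n N N ∧ pp n N N < 1 := by
    have hNN : (0 : ℝ) < N := by exact_mod_cast NeZero.pos N
    have hnn : (0 : ℝ) < n := by exact_mod_cast h1n
    have : 0 < mu n N N := by unfold mu; positivity
    constructor
    · unfold pp
      have h := Real.exp_lt_exp.2 (neg_neg_of_pos this)
      rw [Real.exp_zero] at h
      linarith
    · unfold pp
      have := Real.exp_pos (-(mu n N N))
      linarith
  have hcov' : covariance X' Y' P =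
      SS (pp n N N) (fun κ : Fin N × Fin N → Bool => (Lc κ : ℝ)) (rho t n N N) -
      SS (pp n N N) (fun κ : Fin N × Fin N → Bool => (Lc κ : ℝ)) 0 := by
    rw [covariance_eq_sub mX' mY', SS_zero, (hFQ _ _ _ hp01.1 hp01.2).2.1,
      ← (I1 (fun κ => (Lc κ : ℝ))).1]
    have e1 : P[X'] = Ex (pp n N N) (fun κ : Fin N × Fin N → Bool => (Lc κ : ℝ)) :=
      (I1 (fun κ => (Lc κ : ℝ))).2.1
    have e2 : P[Y'] = Ex (pp n N N) (fun κ : Fin N × Fin N → Bool => (Lc κ : ℝ)) :=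
      (I1 (fun κ => (Lc κ : ℝ))).2.2
    rw [e1, e2, sq]
    rfl
  obtain ⟨F1, F2⟩ := H1 N hN1 (rho t n N N) I3 I4
  -- the variance is large
  have hvv : c * (n : ℝ) ^ (58 / 100 : ℝ) ≤
      3 * Vr (pp n N N) (fun κ : Fin N × Fin N → Bool => (Lc κ : ℝ)) + 8 := by
    rw [← vX', ← vX''] at hV
    have hd : ∫ ω, (X'' ω - X' ω) ^ 2 ∂P ≤ 4 := by
      have i1 : Integrable (fun ω => (X ω - X' ω) ^ 2) P := (mX.sub mX').integrable_sq
      have i2 : Integrable (fun ω => (X ω - X'' ω) ^ 2) P := (mX.sub mX'').integrable_sq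
      calc ∫ ω, (X'' ω - X' ω) ^ 2 ∂P ≤ ∫ ω, (2 * (X ω - X' ω) ^ 2 + 2 * (X ω - X'' ω) ^ 2) ∂P := by
            apply integral_mono (mX''.sub mX').integrable_sq ((i1.const_mul 2).add (i2.const_mul 2))
            intro ω
            show (X'' ω - X' ω) ^ 2 ≤ 2 * (X ω - X' ω) ^ 2 + 2 * (X ω - X'' ω) ^ 2
            have h := sq_nonneg (2 * X ω - X' ω - X'' ω)
            nlinarith [h]
        _ = 2 * ∫ ω, (X ω - X' ω) ^ 2 ∂P + 2 * ∫ ω, (X ω - X'' ω) ^ 2 ∂P := by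
            rw [integral_add (i1.const_mul 2) (i2.const_mul 2), integral_const_mul,
              integral_const_mul]
        _ ≤ 4 := by linarith
    have h5 : variance X'' P ≤ 2 * variance X' P + 8 := by
      have e0 : X'' = X' + (X'' - X') := by ring
      have h6 : variance (X'' - X') P ≤ 4 := by
        refine le_trans (variance_le_expectation_sq (mX''.sub mX').aestronglyMeasurable) ?_
        simpa using hd
      have h7 : variance (X' + (X'' - X')) P ≤ 2 * variance X' P + 2 * variance (X'' - X') P := by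
        have a := variance_add mX' (mX''.sub mX')
        have b := variance_sub mX' (mX''.sub mX')
        have := variance_nonneg (X' - (X'' - X')) P
        linarith
      rw [← e0] at h7
      linarith
    linarith
  obtain ⟨hv4, hfin⟩ := H3 n hn3 _ hvv
  have := hFC P X Y X' Y' _ ((n : ℝ) ^ (56 / 100 : ℝ)) (ε / 16) mX mY mX' mY' dX dY vX' vY'
    (by rw [hcov']; exact F1) (by rw [hcov']; exact F2) (by positivity) (by positivity) hv4
  have h9 := le_trans this (le_refl _)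
  have : 4 * (n : ℝ) ^ (56 / 100 : ℝ) /
      Vr (pp n N N) (fun κ : Fin N × Fin N → Bool => (Lc κ : ℝ)) + 4 * (ε / 16) +
      16 / Real.sqrt (Vr (pp n N N) (fun κ : Fin N × Fin N → Bool => (Lc κ : ℝ))) < ε := by
    linarith
  exact lt_of_le_of_lt h9 this

end Pool.Agent.Q295.PN
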