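import Pool.Agent.Q295.PN.Defs

/-!
# Project PN: statements of the finite part (noise function, level one inequality, deficits)

Every `S_X` is a lemma job; hypotheses of the form `S_Y →` are other jobs.  In all statements
`ι` is a finite type and the variables `κ i` are independent Bernoulli `p`.
-/

set_option autoImplicit false

namespace Pool.Agent.Q295.PN

open Finset

/-! ### Part C: the noise function -/

/-- JOB FQ.  Parseval for partial averages.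
Proof. Let `σ = √(p(1-p))`, `χ_T(κ) = ∏_{i∈T} (κ_i - p)/σ` (`κ_i` read as 0/1).  One variable:
`E (κ_i-p) = 0`, `E (κ_i-p)² = p(1-p)`.  `Av_V f (κ) = Σ_{T⊆V} fh(T) χ_T(κ)`: by linearity it is
enough to take `f = ∏_i f_i(κ_i)` or better the point masses `f = 1{κ=a} = ∏ 1{κ_i=a_i}`, where it is
the product over `i∈V` of `f_i(b) = E f_i + (E f_i (κ_i-p)/σ) (b-p)/σ` for `b = 0,1`
(`Finset.prod_add`) times the product over `i∉V` of `E f_i`.  Then use `E χ_T χ_S = 1{T=S}`.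
The two special cases are direct. -/
def S_FQ : Prop := ∀ (ι : Type) [Fintype ι] [DecidableEq ι] (p : ℝ) (f : (ι → Bool) → ℝ),
  0 < p → p < 1 →
  (∀ V : Finset ι, QQ p f V = ∑ T ∈ V.powerset, (fh p f T) ^ 2) ∧
  QQ p f ∅ = (Ex p f) ^ 2 ∧ QQ p f univ = Ex p (fun κ => (f κ) ^ 2) ∧
  Vr p f = ∑ T ∈ (univ : Finset (Finset ι)).filter (fun T => T ≠ ∅), (fh p f T) ^ 2

/-- JOB FD.  Fourier coefficients of a discrete derivative.
Proof. `f(κ) = f(κ^{y→0}) + κ_y D_y f(κ)`.  For `y ∉ T`,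
`E f (κ_y-p) ∏_{i∈T}(κ_i-p) = E[D_y f κ_y (κ_y-p) ∏_T] = p(1-p) E[D_y f ∏_T]`, because
`f(κ^{y→0})`, `D_y f` and `∏_T` do not depend on `κ_y`.  If `y ∈ T` then `D_y f` does not depend on
`κ_y` and `E(κ_y - p) = 0`. -/
def S_FD : Prop := ∀ (ι : Type) [Fintype ι] [DecidableEq ι] (p : ℝ) (f : (ι → Bool) → ℝ) (y : ι)
  (T : Finset ι), 0 < p → p < 1 →
  (y ∉ T → fh p f (insert y T) = Real.sqrt (p * (1 - p)) * fh p (DD f y) T) ∧
  (y ∈ T → fh p (DD f y) T = 0)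

/-- JOB FS.  The noise function in Fourier coefficients.
Proof. `Σ_V s^|V| (1-s)^(n-|V|) Σ_{T⊆V} w_T = Σ_T w_T Σ_{V⊇T} s^|V|(1-s)^(n-|V|) = Σ_T w_T s^|T|`
(binomial theorem for the complement of `T`, `Finset.sum_pow_mul_eq_add_pow` or
`Finset.prod_add`). -/
def S_FS : Prop := S_FQ → ∀ (ι : Type) [Fintype ι] [DecidableEq ι] (p : ℝ) (f : (ι → Bool) → ℝ)
  (s : ℝ), 0 < p → p < 1 → SS p f s = ∑ T : Finset ι, (fh p f T) ^ 2 * s ^ T.card

/-- JOB L1.  Level one inequality for functions with bounded ratios.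
Proof. Let `π = Ex g`; if `π = 0` then `g = 0` (all weights are positive) and the left side is
`0`.  Let `b_y = Ex (D_y g)`; by the ratio hypothesis `|D_y g| ≤ (B-1) min(g(κ^{y→1}), g(κ^{y→0})) ≤
(B-1) g`, so `|b_y| ≤ (B-1) π`.  Let `X = Σ_y b_y (κ_y - p)`.  Then
`E[g X] = Σ b_y E[g (κ_y-p)] = p(1-p) Σ b_y² =: W`.  Let `λ = 1/(2Bπ)`.  By Jensen (concavity of log,
or `log x ≤ x - 1`: for `t = E[g e^{λX}]/π`, use `λ X ≤ e^{λX}/t + log t - 1`)
`λ W/π = E[g λX]/π ≤ log (E[g e^{λX}]/π) ≤ log(1/π) + log E e^{λX}` because `g ≤ 1`.  By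
independence `E e^{λX} = ∏_y E e^{λ b_y (κ_y-p)} ≤ ∏ (1 + λ² b_y² p(1-p)) ≤ e^{λ² W}`
(`e^x ≤ 1+x+x²` for `|x| ≤ 1`, here `|λ b_y (κ_y-p)| ≤ 1/2`).  So
`W (1/(2Bπ²) - 1/(4B²π²)) ≤ log (1/π)` and `1/(2B) - 1/(4B²) ≥ 1/(4B)`. -/
def S_L1 : Prop := ∀ (ι : Type) [Fintype ι] [DecidableEq ι] (p B : ℝ) (g : (ι → Bool) → ℝ),
  0 < p → p < 1 → 1 ≤ B → (∀ κ, 0 ≤ g κ ∧ g κ ≤ 1) →
  (∀ y κ, g (Function.update κ y true) ≤ B * g (Function.update κ y false) ∧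
    g (Function.update κ y false) ≤ B * g (Function.update κ y true)) →
  p * (1 - p) * ∑ y, (Ex p (DD g y)) ^ 2 ≤ 4 * B * (Ex p g) ^ 2 * Real.log (1 / Ex p g)

/-- JOB LV.  The same conditionally on the coordinates in `V`.
Proof. For `y ∉ V`: by FQ and FD `QQ g (insert y V) - QQ g V = Σ_{T⊆V} fh g (insert y T)² =
p(1-p) Σ_{T⊆V} fh (D_y g) T² = p(1-p) QQ (D_y g) V`.  For fixed `κ` let `g_κ(κ') = g(mix V κ κ')`;
it satisfies the hypotheses of L1 with the same `B`, `Ex g_κ = Av V g κ =: π_κ ∈ [0,1]`, and for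
`y ∉ V` `Ex (DD g_κ y) = Av V (DD g y) κ`.  By L1, `p(1-p) Σ_{y∉V} (Av V (DD g y) κ)² ≤
4B π_κ² log(1/π_κ) ≤ 4B (R π_κ² + e^{-R})`: if `π ≥ e^{-R}` this is clear, if `π < e^{-R}` then
`π² log(1/π) ≤ π · (π log (1/π)) ≤ π ≤ e^{-R}`.  Take the expectation over `κ`. -/
def S_LV : Prop := S_FQ → S_FD → S_L1 →
  ∀ (ι : Type) [Fintype ι] [DecidableEq ι] (p B R : ℝ) (g : (ι → Bool) → ℝ) (V : Finset ι),
  0 < p → p < 1 → 1 ≤ B → 0 ≤ R → (∀ κ, 0 ≤ g κ ∧ g κ ≤ 1) →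
  (∀ y κ, g (Function.update κ y true) ≤ B * g (Function.update κ y false) ∧
    g (Function.update κ y false) ≤ B * g (Function.update κ y true)) →
  ∑ y ∈ univ \ V, (QQ p g (insert y V) - QQ p g V) ≤ 4 * B * (R * QQ p g V + Real.exp (-R))

/-- JOB GW.  Growth of the noise function.
Proof. Let `S(s) = SS p g s` (a polynomial in `s`).  With `w_T = (fh g T)²` (FS)
`S'(s) = Σ_T |T| w_T s^{|T|-1}` and `(1-s) S'(s) = Σ_V s^|V| (1-s)^{n-|V|} Σ_{y∉V} (QQ(insert y V) -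
QQ V)` (insert FQ: `QQ(insert y V) - QQ V = Σ_{T⊆V} w_{insert y T}` and sum over `V ⊇ T`, `y ∉ V`:
`s^|T| (1-s)`).  By LV, for `0 ≤ s ≤ 1/2`: `S' ≤ 8B (R S + e^{-R})`.  Hence
`s ↦ (S(s) + e^{-R}/R) e^{-8BRs}` is antitone on `[0,1/2]`, `S(s) ≤ (S(0) + e^{-R}/R) e^{8BRs}` and
`S(0) = QQ ∅ = (Ex g)²`, `1/R ≤ 1`. -/
def S_GW : Prop := S_FQ → S_FS → S_LV → S_FD → S_L1 →
  ∀ (ι : Type) [Fintype ι] [DecidableEq ι] (p B R s : ℝ) (g : (ι → Bool) → ℝ),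
  0 < p → p < 1 → 1 ≤ B → 1 ≤ R → 0 ≤ s → s ≤ 1 / 2 → (∀ κ, 0 ≤ g κ ∧ g κ ≤ 1) →
  (∀ y κ, g (Function.update κ y true) ≤ B * g (Function.update κ y false) ∧
    g (Function.update κ y false) ≤ B * g (Function.update κ y true)) →
  SS p g s ≤ ((Ex p g) ^ 2 + Real.exp (-R)) * Real.exp (8 * B * R * s)

/-- JOB CM.  Main inequality of part C.
Proof. With `w_T = (fh L T)²`: `SS L ρ - SS L 0 = Σ_{T≠∅} w_T ρ^|T| ≥ 0` (FS).  Terms with
`|T| ≥ k` are at most `ρ^k Σ_{T≠∅} w_T = ρ^k Vr L` (FQ).  Terms with `1 ≤ |T| < k` are at most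
`w_T ≤ (s₀⁻¹)^k |T| w_T s₀^{|T|-1}`.  Finally `Σ_T |T| w_T s₀^{|T|-1} = Σ_x Σ_{T∋x} w_T s₀^{|T|-1} =
p(1-p) Σ_x SS (DD L x) s₀` by FD and FS (`T = insert x T'`, the coefficients of `DD L x` at sets
containing `x` vanish), and `SS (DD L x) s₀ ≤ SS (h x) s₀` since `0 ≤ DD L x ≤ h x` (monotonicity of
`Av` and of squares of nonnegative numbers), and `SS (h x) s₀ ≤ ((Ex (h x))² + e^{-R}) e^{8BRs₀}` by
GW. -/
def S_CM : Prop := S_FQ → S_FD → S_FS → S_GW → S_LV → S_L1 →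
  ∀ (ι : Type) [Fintype ι] [DecidableEq ι] (p B R s₀ ρ : ℝ) (k : ℕ)
  (L : (ι → Bool) → ℝ) (h : ι → (ι → Bool) → ℝ), 0 < p → p < 1 → 1 ≤ B → 1 ≤ R → 0 < s₀ →
  s₀ ≤ 1 / 2 → 0 ≤ ρ → ρ ≤ 1 →
  (∀ x κ, 0 ≤ DD L x κ ∧ DD L x κ ≤ h x κ ∧ h x κ ≤ 1) →
  (∀ x y κ, h x (Function.update κ y true) ≤ B * h x (Function.update κ y false) ∧
    h x (Function.update κ y false) ≤ B * h x (Function.update κ y true)) →
  0 ≤ SS p L ρ - SS p L 0 ∧
  SS p L ρ - SS p L 0 ≤ (s₀⁻¹) ^ k * Real.exp (8 * B * R * s₀) *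
    (p * ∑ x : ι, (Ex p (h x)) ^ 2 + p * Fintype.card ι * Real.exp (-R)) + ρ ^ k * Vr p L

/-! ### Part B: deficits -/

open Classical in
/-- JOB MC.  Basic facts about longest chains.
Proof. All are immediate from the definition (a sup over a finite nonempty set is attained).
(6): a longest chain of `insert x A` either avoids `x`, or is `C₁ ∪ {x} ∪ C₂`, `C₁ < x < C₂`;
conversely such unions are chains. -/
def S_MC : Prop := ∀ (ι : Type) [Fintype ι] [DecidableEq ι] [PartialOrder ι],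
  (∀ A B : Finset ι, A ⊆ B → mc A ≤ mc B) ∧
  (∀ (A : Finset ι) (w : ι), mc (insert w A) ≤ mc A + 1) ∧
  (∀ A : Finset ι, ∃ C : Finset ι, C ⊆ A ∧ IsChain (· ≤ ·) (C : Set ι) ∧ C.card = mc A) ∧
  (∀ A C : Finset ι, C ⊆ A → IsChain (· ≤ ·) (C : Set ι) → C.card ≤ mc A) ∧
  (∀ (A : Finset ι) (x : ι),
    mc (A.filter (fun y => x < y)) + mc (A.filter (fun y => y < x)) ≤ mc (A.erase x)) ∧
  (∀ (A : Finset ι) (x : ι), mc (insert x A) =
    max (mc (A.erase x)) (mc (A.filter (fun y => x < y)) + mc (A.filter (fun y => y < x)) + 1))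

/-- JOB DE.  Basic facts about the deficit.
Proof. (1), (2) clear (`Fw`, `Bw` and `(op κ).erase x` do not depend on `κ x`).  (3): by MC (6)
`Lc(κ^{x→1}) = max(Lc(κ^{x→0}), Fw + Bw + 1)`, and `Lc(κ^{x→0}) = mc((op κ).erase x) ≥ Fw + Bw`.
(4): changing `κ y` from false to true raises `mc((op κ).erase x)` by 0 or 1 and raises at most one
of `Fw x`, `Bw x` by at most 1 (MC (1), (2)); by (1) the subtraction in `De` is a true one. -/
def S_DE : Prop := S_MC → ∀ (ι : Type) [Fintype ι] [DecidableEq ι] [PartialOrder ι] (x : ι)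
  (κ : ι → Bool),
  (Fw x κ + Bw x κ ≤ mc ((op κ).erase x)) ∧
  (∀ b, De x (Function.update κ x b) = De x κ ∧ Fw x (Function.update κ x b) = Fw x κ ∧
    Bw x (Function.update κ x b) = Bw x κ) ∧
  (DD (fun κ => (Lc κ : ℝ)) x κ = if De x κ = 0 then 1 else 0) ∧
  (∀ y, De x (Function.update κ y true) ≤ De x (Function.update κ y false) + 1 ∧
    De x (Function.update κ y false) ≤ De x (Function.update κ y true) + 1)

/-- JOB CH.  The first `M` points of a longest chain above `x` and insertion of a point.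
Proof. Take a longest chain of `(op κ) ∩ (x,∞)` and list it increasingly `z 1 < z 2 < …` (e.g. by
induction on `M`: `z (i+1)` = minimum of a longest chain above `z i`; the least element of a finite
nonempty chain exists).  With `f = Fw x κ`: `Fw (z i) κ = f - i` (`≥` from the chain, `≤` since
otherwise `z 1, …, z i` and a longer chain above `z i` would give a chain with more than `f`
elements above `x`).  A point `w` with `z i < w < z (i+1)` is not open: else `z 1, …, z i, w,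
z (i+1), …` has `f+1` elements.  After opening `w` this chain has `f+1` elements, so
`Fw x κ' = f + 1` (MC (2)), and `Fw w κ' = Fw w κ = f - i`, so `w` is essential with
`Fw x κ' = f+1 ≤ (f - i) + M`. -/
def S_CH : Prop := S_MC → ∀ (ι : Type) [Fintype ι] [DecidableEq ι] [PartialOrder ι] (x : ι)
  (κ : ι → Bool) (M : ℕ), M ≤ Fw x κ →
  ∃ z : ℕ → ι, z 0 = x ∧ (∀ i < M, z i < z (i + 1) ∧ κ (z (i + 1)) = true) ∧
    (∀ i ≤ M, Fw (z i) κ + i = Fw x κ) ∧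
    ∀ i < M, ∀ w, z i < w → w < z (i + 1) → κ w = false ∧
      Fw x (Function.update κ w true) = Fw x κ + 1 ∧
      Bw x (Function.update κ w true) = Bw x κ ∧ Ess M x w (Function.update κ w true)

open Classical in
/-- JOB ES.  There are at most `M` essential points among the first `M`.
Proof. Every essential point lies on every longest chain above `x`; fix one such chain `C`
(if `w ∉ C` then `C` would be a chain above `x` in `κ` without `w`).  On the elements `w` of a longest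
chain `C` above `x` the map `w ↦ Fw x κ - Fw w κ` is injective (for `w < w'` in `C` both open,
`Fw w κ ≥ Fw w' κ + 1`) with values in `{1, …, M}` on essential points (`Fw w κ + 1 ≤ Fw x κ`). -/
def S_ES : Prop := S_MC → ∀ (ι : Type) [Fintype ι] [DecidableEq ι] [PartialOrder ι] (x : ι)
  (κ : ι → Bool) (M : ℕ), (univ.filter (fun w => Ess M x w κ)).card ≤ M

open Classical in
/-- JOB MK.  Discrete Mecke formula.
Proof. The left side is `Σ_w Σ_κ wt κ · p · 1{κ x = 0, κ w = 0, …}`.  For `κ w = false`,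
`κ' = update κ w true`: `p · wt κ = (1-p) wt κ'`.  So it is
`(1-p) Σ_{κ'} wt κ' 1{κ' x = 0, De x κ' = j} · #{w : κ' w = 1, Ess M x w κ'}` (`Ess` implies `x < w`,
so `w ≠ x`), at most `(1-p) M Pr(κ x = 0, De x κ = j)` by ES, and `De x` does not depend on `κ x`
(DE (2)), so this is `(1-p)² M rr j x`. -/
def S_MK : Prop := S_MC → S_DE → S_ES →
  ∀ (ι : Type) [Fintype ι] [DecidableEq ι] [PartialOrder ι] (p : ℝ) (M j : ℕ) (x : ι),
  0 < p → p < 1 →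
  Ex p (fun κ => if κ x = false then p * ∑ w, (if κ w = false ∧
    De x (Function.update κ w true) = j ∧ Ess M x w (Function.update κ w true) then (1 : ℝ) else 0)
    else 0) ≤ M * (1 - p) ^ 2 * rr p j x

/-- JOB PS.  Expectation of the sums over chains of open points.
Proof. Induction on `i` for all `x`: `Ex psi_{i+1}(x) = Σ_z 1{x<z, p bt < c} Ex[1{κ z = 1}
psi_i(z, κ^{z→0})]`, and `Ex[1{κ z=1} F(κ^{z→0})] = p Ex[F(κ^{z→0})] = p Ex[F(κ) 1{κ z = 0}]/(1-p) ≤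
(p/(1-p)) Ex F` for `F ≥ 0`. -/
def S_PS : Prop := ∀ (ι : Type) [Fintype ι] [DecidableEq ι] [PartialOrder ι] (p c : ℝ)
  (g : ι → (ι → Bool) → ℝ) (i : ℕ) (x : ι), 0 < p → p < 1 → (∀ y κ, 0 ≤ g y κ) →
  Ex p (psi p c g i x) ≤ (1 / (1 - p)) ^ i * itk (kk p c) (fun y => Ex p (g y)) i x

/-- JOB NO.  Closing points which are on no longest chain.
Proof. Let `κ₀` be `κ` with the points of `Z` closed.  (a) there is a chain `C` of size
`Lc κ + 1` in `op κ ∪ {w}`, it contains `w` (else `Lc κ` would be bigger); `C \ {w}` is a longest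
chain of `κ`, so it avoids `Z` and lies in `op κ₀`.  So `Lc κ₀ = Lc κ` and `Fw w κ₀ + Bw w κ₀ ≥
|C| - 1 = Lc κ = Lc κ₀ ≥ mc((op κ₀).erase w)`, that is `De w κ₀ = 0`.  (b) a longest chain `C ∋ z`
avoids `Z`, so `C ⊆ op κ₀`, and `Fw z κ₀ + Bw z κ₀ ≥ |C| - 1 = Lc κ - 1 ≥ mc((op κ₀).erase z) - 1`. -/
def S_NO : Prop := S_MC → ∀ (ι : Type) [Fintype ι] [DecidableEq ι] [PartialOrder ι]
  (κ : ι → Bool) (Z : Finset ι),
  (∀ z ∈ Z, ¬ ∃ C : Finset ι, C ⊆ op κ ∧ IsChain (· ≤ ·) (C : Set ι) ∧ C.card = Lc κ ∧ z ∈ C) →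
  (∀ w, κ w = false → Lc (Function.update κ w true) = Lc κ + 1 →
    De w (fun i => if i ∈ Z then false else κ i) = 0) ∧
  (∀ z, (∃ C : Finset ι, C ⊆ op κ ∧ IsChain (· ≤ ·) (C : Set ι) ∧ C.card = Lc κ ∧ z ∈ C) →
    De z (fun i => if i ∈ Z then false else κ i) ≤ 1)

open Classical in
/-- JOB BD.  The deterministic inequality.
Proof. Assume `¬ Gap`.  Take `z 0 = x < z 1 < … < z M` from CH.  Call `z` optimal if it is on a
longest chain of `op κ`, call the step `i` short if `p bt(z i, z(i+1)) < 2α`.  Lower bound of psi: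
if the steps `0,…,i-1` are short then `psi (2α) g i x κ ≥ g (z i) (κ with z 1,…,z i closed)` for
`g ≥ 0` (induction on `i`; one term of the sum; after closing `z 1` the other `z l` are still open).
Case 0: all steps `i < M` are short and `z 1, …, z M` are not optimal (not even needed): the last
summand is at least 1.  Otherwise let `i < M` be least such that step `i` is not short or `z (i+1)`
is optimal; then steps `< i` are short and `z 1, …, z i` are not optimal.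
Case 1: step `i` is short, `z (i+1)` is optimal: by NO (b) with `Z = {z 1, …, z i}` and since `De` at
`z (i+1)` does not depend on the value at `z (i+1)` (DE), `g1 (z (i+1)) = 1` at `κ` with
`z 1, …, z (i+1)` closed; so `psi (2α) g1 (i+1) x κ ≥ 1`.
Case 2: `p bt(z i, z (i+1)) ≥ 2α`.  Every `w` strictly between is closed and either
`Lc (κ^{w→1}) = Lc κ`, and then by CH `De x (κ^{w→1}) = Lc κ - (Fw x κ + 1 + Bw x κ) = j` (`κ x =
false`, so `(op κ).erase x = op κ`) and `Ess M x w (κ^{w→1})`; or `Lc (κ^{w→1}) = Lc κ + 1` and then by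
NO (a) `De w κ₀ = 0` for `κ₀` = `κ` with `z 1,…,z i` closed; since `¬ Gap`, `p bt(z i, w) ≤
p bt(z i, z (i+1)) < T`.  One of the two classes has at least `α/p` elements: in the first case the
second summand is `≥ 1`, in the second case `gT (z i) κ₀ ≥ α/p` and `psi (2α) (gT p T) i x κ ≥ α/p`. -/
def S_BD : Prop := S_MC → S_DE → S_CH → S_NO →
  ∀ (ι : Type) [Fintype ι] [DecidableEq ι] [PartialOrder ι] (p α T : ℝ) (M j : ℕ) (x : ι)
  (κ : ι → Bool), 0 < p → 0 < α → 1 ≤ M → κ x = false → De x κ = j + 1 → M ≤ Fw x κ →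
  (1 : ℝ) ≤ (if Gap p T x κ then 1 else 0) +
    p / α * (∑ w, (if κ w = false ∧ De x (Function.update κ w true) = j ∧
      Ess M x w (Function.update κ w true) then (1 : ℝ) else 0)) +
    p / α * (∑ i ∈ range M, psi p (2 * α) (gT p T) i x κ) +
    (∑ m ∈ Icc 1 M, psi p (2 * α) g1 m x κ) + psi p (2 * α) (fun _ _ => 1) M x κ

/-- JOB GA.  Large empty intervals.
Proof. Union bound over `z'` (for `z = x`) and over `(z, z')` (for `z` open).  The coordinates `z`,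
`z'` and those strictly between are different, and the probability that the `b = bt z z'` points
between are closed is `(1-p)^b ≤ e^{-pb} ≤ e^{-T}`.  So `Pr ≤ |ι| p e^{-T} + |ι|² p² e^{-T}`. -/
def S_GA : Prop := ∀ (ι : Type) [Fintype ι] [DecidableEq ι] [PartialOrder ι] (p T : ℝ) (x : ι),
  0 < p → p < 1 →
  Pr p (Gap p T x) ≤ p * Fintype.card ι * (1 + p * Fintype.card ι) * Real.exp (-T)

/-- JOB BP.  The pointwise inequality (forward).
Proof. `De x` and `Fw x` do not depend on `κ x` (DE), so `(1-p) Pr(De x = j+1, M ≤ Fw x) =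
Ex 1{κ x = 0, De x κ = j+1, M ≤ Fw x κ}`.  Insert BD (times the indicator of `κ x = 0`) and take
expectations: GA, MK (`(1/α) M (1-p)² rr_j ≤ (M/α) rr_j`), and PS for the three kinds of `psi`; here
`p Ex (gT p T y) = ak (kk p T) (rr p 0) y`, `Ex (g1 y) = rr p 0 y + rr p 1 y`, `Ex 1 = 1` and
`itk (kk p (2α)) 1 M ≤ v^M` by the row sums (`kk ≥ 0`).  Multiply by `(1-p)^M` and use
`(1-p)^M (1/(1-p))^i ≤ 1` for `i ≤ M`. -/
def S_BP : Prop := S_MC → S_DE → S_MK → S_ES → S_PS → S_GA → S_BD → S_CH → S_NO →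
  ∀ (ι : Type) [Fintype ι] [DecidableEq ι] [PartialOrder ι] (p α T v : ℝ) (M j : ℕ) (x : ι),
  0 < p → p < 1 → 0 < α → 1 ≤ M → 0 ≤ v → (∀ y : ι, ∑ z, kk p (2 * α) y z ≤ v) →
  (1 - p) ^ (M + 1) * Pr p (fun κ => De x κ = j + 1 ∧ M ≤ Fw x κ) ≤
    M / α * rr p j x +
    1 / α * (∑ i ∈ range M, itk (kk p (2 * α)) (ak (kk p T) (rr p 0)) i x) +
    (∑ m ∈ Icc 1 M, itk (kk p (2 * α)) (fun z : ι => rr p 0 z + rr p 1 z) m x) + v ^ M +
    p * Fintype.card ι * (1 + p * Fintype.card ι) * Real.exp (-T)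

/-- JOB BW.  The pointwise inequality (backward), by duality.
Proof. Apply the forward statement to the dual order `ιᵒᵈ` (same Fintype and DecidableEq; a type
synonym).  `mc` is the same (chains of the dual order are chains), `Fw` and `Bw` are exchanged,
`De`, `rr`, `Lc` are the same, `bt x z` becomes `bt z x` and `kk x z` becomes `kk z x`.  The
hypothesis `H` is the conclusion of BP. -/
def S_BW : Prop :=
  (∀ (ι : Type) [Fintype ι] [DecidableEq ι] [PartialOrder ι] (p α T v : ℝ) (M j : ℕ) (x : ι),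
  0 < p → p < 1 → 0 < α → 1 ≤ M → 0 ≤ v → (∀ y : ι, ∑ z, kk p (2 * α) y z ≤ v) →
  (1 - p) ^ (M + 1) * Pr p (fun κ => De x κ = j + 1 ∧ M ≤ Fw x κ) ≤
    M / α * rr p j x +
    1 / α * (∑ i ∈ range M, itk (kk p (2 * α)) (ak (kk p T) (rr p 0)) i x) +
    (∑ m ∈ Icc 1 M, itk (kk p (2 * α)) (fun z : ι => rr p 0 z + rr p 1 z) m x) + v ^ M +
    p * Fintype.card ι * (1 + p * Fintype.card ι) * Real.exp (-T)) →
  ∀ (ι : Type) [Fintype ι] [DecidableEq ι] [PartialOrder ι] (p α T v : ℝ) (M j : ℕ) (x : ι),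
  0 < p → p < 1 → 0 < α → 1 ≤ M → 0 ≤ v → (∀ z : ι, ∑ y, kk p (2 * α) y z ≤ v) →
  (1 - p) ^ (M + 1) * Pr p (fun κ => De x κ = j + 1 ∧ M ≤ Bw x κ) ≤
    M / α * rr p j x +
    1 / α * (∑ i ∈ range M, itk (fun a b => kk p (2 * α) b a)
      (ak (fun a b => kk p T b a) (rr p 0)) i x) +
    (∑ m ∈ Icc 1 M, itk (fun a b => kk p (2 * α) b a) (fun z : ι => rr p 0 z + rr p 1 z) m x) + v ^ M +
    p * Fintype.card ι * (1 + p * Fintype.card ι) * Real.exp (-T)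

/-- JOB SC.  Schur test for iterates.
Proof. `(Σ_z k(x,z) f(z))² ≤ (Σ_z k(x,z)) Σ_z k(x,z) f(z)² ≤ v Σ_z k(x,z) f(z)²`; sum over `x` with the
column sums; induction on `i`. -/
def S_SC : Prop := ∀ (ι : Type) [Fintype ι] (k : ι → ι → ℝ) (v : ℝ) (f : ι → ℝ) (i : ℕ), 0 ≤ v →
  (∀ x z, 0 ≤ k x z) → (∀ x, ∑ z, k x z ≤ v) → (∀ z, ∑ x, k x z ≤ v) →
  ∑ x, (itk k f i x) ^ 2 ≤ (v ^ i) ^ 2 * ∑ x, (f x) ^ 2

/-- JOB BL.  The square sum of `E B^{-De}`.
Hypotheses `HF`, `HB`: the conclusions of BP and BW (all `j`, `x`) for the given data.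
Proof. Norm `‖f‖ = √(p Σ_x f(x)²)`, `a_j = ‖rr p j‖`, `o = ‖1‖ = √(p |ι|)`.  For `j + 1 ≤ J`:
`De x κ = j+1` implies `M ≤ Fw`, or `M ≤ Bw`, or `Lc κ ≤ mc((op κ).erase x) + 1 = De + Fw + Bw + 1 ≤
2M + j ≤ 2M + J`.  With `(1-p)^(M+1) ≥ 1/2`, HF, HB:
`rr_{j+1} ≤ (4M/α) rr_j + (2/α) Σ_{i<M} (fw_i + bw_i) + 2 Σ_{m=1}^M (fw'_m + bw'_m) + e`.
By SC (for `kk` and its transpose; note `kk ≥ 0`) and Minkowski, with `Σ_{i<M} v^i ≤ 1/(1-v) ≤ 2`,
`Σ_{m≥1} v^m ≤ v/(1-v) ≤ 1/31`: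
`a_{j+1} ≤ (4M/α) a_j + (8 vT/α) a_0 + (4/31)(a_0 + a_1) + e o`.
`j = 0`: `a_1 ≤ G a_0 + 2 e o` with `G = 16(M+vT+1)/α ≥ 16`.  Induction: `a_j ≤ (2G)^j (a_0 + e o)` for
`j ≤ J`: step `(G/4) a_j + (G/2+1) a_0 + (4/31) a_1 + e o ≤ (2G)^j (a_0 + e o)(3G/4 + 3) ≤
(2G)^{j+1}(a_0 + e o)`.  Hence, as `B ≥ 4G`,
`‖E B^{-De}‖ ≤ Σ_{j≤J} B^{-j} a_j + B^{-J} o ≤ 2 (a_0 + e o) + B^{-J} o`, and
`(2a_0 + (2e + B^{-J}) o)² ≤ 8 a_0² + 2 (2e + B^{-J})² o²`. -/
def S_BL : Prop := S_MC → S_DE → S_SC →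
  ∀ (ι : Type) [Fintype ι] [DecidableEq ι] [PartialOrder ι] (p α T v vT B e : ℝ) (M J : ℕ),
  0 < p → p < 1 → 0 < α → α ≤ 1 → 1 ≤ M → 1 / 2 ≤ (1 - p) ^ (M + 1) →
  0 ≤ v → 32 * v ≤ 1 → 0 ≤ vT →
  (∀ y : ι, ∑ z, kk p (2 * α) y z ≤ v) → (∀ z : ι, ∑ y, kk p (2 * α) y z ≤ v) →
  (∀ y : ι, ∑ z, kk p T y z ≤ vT) → (∀ z : ι, ∑ y, kk p T y z ≤ vT) →
  64 * (M + vT + 1) / α ≤ B →
  4 * (v ^ M + p * Fintype.card ι * (1 + p * Fintype.card ι) * Real.exp (-T)) +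
    Pr p (fun κ : ι → Bool => Lc κ ≤ 2 * M + J) ≤ e →
  (∀ (j : ℕ) (x : ι), (1 - p) ^ (M + 1) * Pr p (fun κ => De x κ = j + 1 ∧ M ≤ Fw x κ) ≤
    M / α * rr p j x +
    1 / α * (∑ i ∈ range M, itk (kk p (2 * α)) (ak (kk p T) (rr p 0)) i x) +
    (∑ m ∈ Icc 1 M, itk (kk p (2 * α)) (fun z : ι => rr p 0 z + rr p 1 z) m x) + v ^ M +
    p * Fintype.card ι * (1 + p * Fintype.card ι) * Real.exp (-T)) →
  (∀ (j : ℕ) (x : ι), (1 - p) ^ (M + 1) * Pr p (fun κ => De x κ = j + 1 ∧ M ≤ Bw x κ) ≤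
    M / α * rr p j x +
    1 / α * (∑ i ∈ range M, itk (fun a b => kk p (2 * α) b a)
      (ak (fun a b => kk p T b a) (rr p 0)) i x) +
    (∑ m ∈ Icc 1 M, itk (fun a b => kk p (2 * α) b a) (fun z : ι => rr p 0 z + rr p 1 z) m x) + v ^ M +
    p * Fintype.card ι * (1 + p * Fintype.card ι) * Real.exp (-T)) →
  p * ∑ x : ι, (Ex p (fun κ => (B⁻¹) ^ (De x κ))) ^ 2 ≤
    8 * (p * ∑ x : ι, (rr p 0 x) ^ 2) + 2 * (2 * e + (B⁻¹) ^ J) ^ 2 * (p * Fintype.card ι)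

/-! ### the square grid -/

/-- JOB GV.  Row and column sums of the kernel on the grid.
Proof. `bt x z = (a+1)(b+1) - 2` for `z - x = (a,b) ≥ 0`, `(a,b) ≠ 0`.  Steps with `a = 0` or `b = 0`:
at most `2N`, giving `2Np`.  For `a, b ≥ 1`, `(a+1)(b+1) - 2 ≥ ab`, so they satisfy `p a b < c`,
`1 ≤ a, b ≤ N`: `p #{…} ≤ Σ_{a=1}^N min(pN, c/a)`.  If `c ≥ pN²` this is `≤ pN² ≤ c`.  Otherwise with
`a₀ = ⌊c/(pN)⌋ < N` it is `≤ c + Σ_{a₀<a≤N} c/a ≤ c + c (1 + log(N/(a₀+1))) ≤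
c (2 + log(pN²/c)) ≤ c (2 + log(1 + pN²/c))`.  Columns: the same by symmetry. -/
def S_GV : Prop := ∀ (N : ℕ) (p c : ℝ), 0 < p → p < 1 → 0 < c →
  (∀ y : Fin N × Fin N, ∑ z, kk p c y z ≤
    2 * N * p + c * (2 + Real.log (1 + N ^ 2 * p / c))) ∧
  (∀ z : Fin N × Fin N, ∑ y, kk p c y z ≤
    2 * N * p + c * (2 + Real.log (1 + N ^ 2 * p / c)))

/-- JOB GL.  The longest chain is rarely short.
Proof. Let `ν = N √p ≥ 4`, `b = ⌈1/√p⌉ ≤ 2/√p` (as `p ≤ 1`), `n₁ = ⌊N/b⌋ ≥ ν/4`.  The `n₁` diagonal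
blocks `[ib,(i+1)b)²` are disjoint, each contains an open point with probability
`1 - (1-p)^{b²} ≥ 1 - e^{-p b²} ≥ 1 - e^{-1}`, independently, and one point of each nonempty block form a
chain, so `Lc ≥` number of nonempty blocks.  union bound over the set of `≤ k` nonempty blocks:
`Pr(Lc ≤ k) ≤ (n₁+1)^k (e^{-1})^{n₁-k}`; in particular it is at most `C_k ν^k e^{-ν/4}` and so `≤ ν^{-A}` for
`ν ≥ ν₀(k,A)`. -/
def S_GL : Prop := ∀ (k : ℕ) (A : ℝ), ∃ ν₀ : ℝ, 1 ≤ ν₀ ∧ ∀ (N : ℕ) (p : ℝ), 0 < p → p ≤ 1 / 16 →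
  ν₀ ≤ N * Real.sqrt p →
  Pr p (fun κ : Fin N × Fin N → Bool => Lc κ ≤ k) ≤ (N * Real.sqrt p) ^ (-A)

end Pool.Agent.Q295.PN
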