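import Pool.Agent.Q295.PN.StmA

/-!
# Project PN: transfer from the Poisson process to Bernoulli fields on grids, and numerics
-/

set_option autoImplicit false

namespace Pool.Agent.Q295.PN

open MeasureTheory ProbabilityTheory Finset

/-- Longest chain of a set of points of the plane (the expression of the frozen statement). -/
noncomputable def LL (A : Set (ℝ × ℝ)) : ℕ :=
  sSup {k : ℕ | ∃ S : Finset (ℝ × ℝ), (↑S : Set (ℝ × ℝ)) ⊆ A ∧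
    IsChain (· ≤ ·) (↑S : Set (ℝ × ℝ)) ∧ S.card = k}

/-- The points of the first process. -/
def eta (C : ℕ × ℕ) (z : ℕ → ((ℝ × ℝ) × ℝ) × (ℝ × ℝ)) : Set (ℝ × ℝ) :=
  {p | ∃ i < C.1, (z i).1.1 = p}

/-- The points of the second process. -/
def etat (t : NNReal) (C : ℕ × ℕ) (z : ℕ → ((ℝ × ℝ) × ℝ) × (ℝ × ℝ)) : Set (ℝ × ℝ) :=
  {p | (∃ i < C.1, (t : ℝ) ≤ (z i).1.2 ∧ (z i).1.1 = p) ∨ (∃ j < C.2, (z j).2 = p)}

/-- The uniform law on the square. -/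
noncomputable def unif (n : ℕ) : Measure (ℝ × ℝ) :=
  (ENNReal.ofReal ((n : ℝ) ^ 2))⁻¹ • volume.restrict (Set.Icc (0 : ℝ × ℝ) ((n : ℝ), (n : ℝ)))

/-- The setting of the frozen statement. -/
structure Setting (n : ℕ) (t : NNReal) {Ω : Type} [MeasurableSpace Ω] (P : Measure Ω)
    (C : Ω → ℕ × ℕ) (Z : ℕ → Ω → ((ℝ × ℝ) × ℝ) × (ℝ × ℝ)) : Prop where
  prob : IsProbabilityMeasure P
  lawC : Measure.map C P = ((poissonPMF ((n : NNReal) ^ 2)).toMeasure).prod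
    ((poissonPMF (t * (n : NNReal) ^ 2)).toMeasure)
  lawZ : ∀ i, Measure.map (Z i) P =
    ((unif n).prod (volume.restrict (Set.Icc (0 : ℝ) 1))).prod (unif n)
  indZ : iIndepFun Z P
  indCZ : IndepFun C (fun ω i => Z i ω) P

/-- The setting with measurable variables. -/
structure SettingM (n : ℕ) (t : NNReal) {Ω : Type} [MeasurableSpace Ω] (P : Measure Ω)
    (C : Ω → ℕ × ℕ) (Z : ℕ → Ω → ((ℝ × ℝ) × ℝ) × (ℝ × ℝ)) : Prop extends Setting n t P C Z where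
  mC : Measurable C
  mZ : ∀ i, Measurable (Z i)

/-- One coordinate of the cell of a point. -/
noncomputable def cl (n M : ℕ) [NeZero M] (x : ℝ) : Fin M :=
  ⟨min ⌊x * M / n⌋₊ (M - 1), by have := NeZero.pos M; omega⟩

/-- The cell of a point. -/
noncomputable def cell (n M K : ℕ) [NeZero M] [NeZero K] (u : ℝ × ℝ) : Fin M × Fin K :=
  (cl n M u.1, cl n K u.2)

/-- Occupied cells of the first process. -/
noncomputable def kap (n M K : ℕ) [NeZero M] [NeZero K] (C : ℕ × ℕ)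
    (z : ℕ → ((ℝ × ℝ) × ℝ) × (ℝ × ℝ)) : Fin M × Fin K → Bool :=
  open Classical in fun c => decide (∃ i < C.1, cell n M K (z i).1.1 = c)

/-- Occupied cells of the second process. -/
noncomputable def kapt (t : NNReal) (n M K : ℕ) [NeZero M] [NeZero K] (C : ℕ × ℕ)
    (z : ℕ → ((ℝ × ℝ) × ℝ) × (ℝ × ℝ)) : Fin M × Fin K → Bool :=
  open Classical in fun c => decide ((∃ i < C.1, (t : ℝ) ≤ (z i).1.2 ∧ cell n M K (z i).1.1 = c) ∨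
    ∃ j < C.2, cell n M K (z j).2 = c)

/-- Mean number of points in a cell. -/
noncomputable def mu (n M K : ℕ) : ℝ := (n : ℝ) ^ 2 / (M * K)

/-- Probability that a cell is occupied. -/
noncomputable def pp (n M K : ℕ) : ℝ := 1 - Real.exp (-(mu n M K))

/-- Correlation of the two occupation variables of a cell. -/
noncomputable def rho (t : NNReal) (n M K : ℕ) : ℝ :=
  (Real.exp (mu n M K * (1 - t)) - 1) / (Real.exp (mu n M K) - 1)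

/-- JOB D1.  Reduction to measurable variables.
Proof. The laws are probability measures (nonzero), so `C` and all `Z i` are AEMeasurable
(`MeasureTheory.Measure.map_of_not_aemeasurable`, `aemeasurable_of_map_neZero`).  Take the
measurable versions `AEMeasurable.mk`; laws and independence are preserved under a.e. equality
(`Measure.map_congr`, `iIndepFun.congr`, `IndepFun.congr`; countably many `i`, so
`fun ω i => Z i ω` changes on a null set). -/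
def S_D1 : Prop := ∀ (n : ℕ) (t : NNReal) {Ω : Type} [MeasurableSpace Ω] (P : Measure Ω)
  (C : Ω → ℕ × ℕ) (Z : ℕ → Ω → ((ℝ × ℝ) × ℝ) × (ℝ × ℝ)), 1 ≤ n → Setting n t P C Z →
  ∃ (C' : Ω → ℕ × ℕ) (Z' : ℕ → Ω → ((ℝ × ℝ) × ℝ) × (ℝ × ℝ)), SettingM n t P C' Z' ∧
    ∀ᵐ ω ∂P, C ω = C' ω ∧ ∀ i, Z i ω = Z' i ω

/-- JOB D0.  Laws of the cells and of the marks.
Proof. On `[0,n]` (a.e. on `[0,n)`) `cl n M x = a` iff `a n/M ≤ x < (a+1) n/M` (for `a = M-1` up to the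
endpoint `x = n`): length `n/M`.  `unif n` is the product of two copies of
`(ofReal n)⁻¹ • volume.restrict (Icc 0 n)`. -/
def S_D0 : Prop := ∀ (n M K : ℕ) [NeZero M] [NeZero K], 1 ≤ n →
  IsProbabilityMeasure (unif n) ∧ Measurable (cell n M K) ∧
  (∀ c : Fin M × Fin K, (unif n).real {u | cell n M K u = c} = 1 / (M * K)) ∧
  (∀ a : Fin M, (unif n).real {u | cl n M u.1 = a} = 1 / M) ∧
  (∀ b : Fin K, (unif n).real {u | cl n K u.2 = b} = 1 / K) ∧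
  IsProbabilityMeasure (volume.restrict (Set.Icc (0 : ℝ) 1)) ∧
  (∀ t : ℝ, 0 ≤ t → t ≤ 1 → (volume.restrict (Set.Icc (0 : ℝ) 1)).real {m | t ≤ m} = 1 - t)

/-- JOB D2.  Avoidance probabilities.
Proof. The event is `{∀ i < C.1, (Z i).1 ∉ X} ∩ {∀ j < C.2, (Z j).2 ∉ Y}` with
`X = {(u,m) : cell u ∈ A ∨ (t ≤ m ∧ cell u ∈ B)}`, `Y = {v : cell v ∈ B}`.  Sum over the values
`(c₁,c₂)` of `C` (independent of `Z`, `indCZ`), and by `indZ` and the product law of `Z i` the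
conditional probability is `(1-x)^{c₁} (1-y)^{c₂}`, `x = (|A| + (1-t)|B \ A|)/(MK)`, `y = |B|/(MK)`
(D0).  `E (1-x)^{C.1} = e^{-n² x}`, `E (1-y)^{C.2} = e^{-t n² y}` (Poisson, independent). -/
def S_D2 : Prop := S_D0 → ∀ (n M K : ℕ) [NeZero M] [NeZero K] (t : NNReal) {Ω : Type}
  [MeasurableSpace Ω] (P : Measure Ω) (C : Ω → ℕ × ℕ) (Z : ℕ → Ω → ((ℝ × ℝ) × ℝ) × (ℝ × ℝ))
  (A B : Finset (Fin M × Fin K)), 1 ≤ n → t ≤ 1 → SettingM n t P C Z →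
  P.real {ω | (∀ c ∈ A, kap n M K (C ω) (fun i => Z i ω) c = false) ∧
    (∀ c ∈ B, kapt t n M K (C ω) (fun i => Z i ω) c = false)} =
  Real.exp (-(mu n M K * (A.card + (1 - t) * (B \ A).card + t * B.card)))

/-- JOB D3.  The law of a pair of Bernoulli fields from its avoidance probabilities.
Proof. Let `π(0,0) = (1-p)(ρ+(1-ρ)(1-p))`, `π(0,1) = π(1,0) = (1-p) - π(0,0)`,
`π(1,1) = 1 - 2(1-p) + π(0,0)`, that is `π(a,b) = ρ 1{a=b} w(a) + (1-ρ) w(a) w(b)`, `w(1) = p`,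
`w(0) = 1-p`.  By hypothesis `P(X = 0 on A, Y = 0 on B) = ∏_i π_{A,B}(i)`, the same as for independent
pairs with law `π`; by inclusion-exclusion (the indicators of `{X = 0 on A, Y = 0 on B}` span all
functions of `(X,Y)`; e.g. `1{X=a} = ∏_{a i = 0} 1{X_i = 0} ∏_{a i = 1} (1 - 1{X_i = 0})`) the joint law
of `(X,Y)` is `∏ π`.  Then `E F(X) H(Y) = Σ_{κ,κ'} ∏ π(κ_i,κ'_i) F(κ) H(κ')`; expand the product of
`ρ 1{κ_i=κ'_i} w(κ_i) + (1-ρ) w(κ_i) w(κ'_i)` over the set `V` of indices with the first term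
(`Finset.prod_add`): `Σ_V ρ^|V| (1-ρ)^{n-|V|} E[(Av V F)(Av V H)]`.  With `F = H` this is `SS p F ρ`, with
`H = 1` it is `Ex p F` (`Σ_V ρ^|V|(1-ρ)^{n-|V|} = 1`). -/
def S_D3 : Prop := ∀ (ι : Type) [Fintype ι] [DecidableEq ι] {Ω : Type} [MeasurableSpace Ω]
  (P : Measure Ω) [IsProbabilityMeasure P] (X Y : Ω → ι → Bool) (p ρ : ℝ), 0 < p → p < 1 →
  0 ≤ ρ → ρ ≤ 1 → (∀ i, Measurable (fun ω => X ω i)) → (∀ i, Measurable (fun ω => Y ω i)) →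
  (∀ A B : Finset ι, P.real {ω | (∀ c ∈ A, X ω c = false) ∧ (∀ c ∈ B, Y ω c = false)} =
    (1 - p) ^ (A \ B).card * (1 - p) ^ (B \ A).card *
    ((1 - p) * (ρ + (1 - ρ) * (1 - p))) ^ (A ∩ B).card) →
  ∀ F : (ι → Bool) → ℝ, ∫ ω, F (X ω) * F (Y ω) ∂P = SS p F ρ ∧
    ∫ ω, F (X ω) ∂P = Ex p F ∧ ∫ ω, F (Y ω) ∂P = Ex p F

/-- JOB D4.  The two occupation fields.
Proof. `kap`, `kapt` are measurable in `ω`.  D2 and D3 with `p = pp`, `ρ = rho`: `1 - p = e^{-μ}`,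
`ρ + (1-ρ)(1-p) = e^{-μ} + ρ (1 - e^{-μ}) = e^{-μ} e^{μ(1-t)} = e^{-μt}`, and
`|A| + (1-t)|B \ A| + t|B| = |A \ B| + |B \ A| + (1+t) |A ∩ B|`.  `0 ≤ ρ ≤ 1-t` by convexity:
`e^{μ s} - 1 ≤ s (e^μ - 1)` for `0 ≤ s ≤ 1`. -/
def S_D4 : Prop := S_D0 → S_D2 → S_D3 → ∀ (n M K : ℕ) [NeZero M] [NeZero K] (t : NNReal)
  {Ω : Type} [MeasurableSpace Ω] (P : Measure Ω) (C : Ω → ℕ × ℕ)
  (Z : ℕ → Ω → ((ℝ × ℝ) × ℝ) × (ℝ × ℝ)), 1 ≤ n → t ≤ 1 → SettingM n t P C Z →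
  (∀ F : (Fin M × Fin K → Bool) → ℝ,
    ∫ ω, F (kap n M K (C ω) (fun i => Z i ω)) * F (kapt t n M K (C ω) (fun i => Z i ω)) ∂P =
      SS (pp n M K) F (rho t n M K) ∧
    ∫ ω, F (kap n M K (C ω) (fun i => Z i ω)) ∂P = Ex (pp n M K) F ∧
    ∫ ω, F (kapt t n M K (C ω) (fun i => Z i ω)) ∂P = Ex (pp n M K) F) ∧
  (∀ F : (Fin M × Fin K → Bool) → ℝ,
    Measurable (fun ω => F (kap n M K (C ω) (fun i => Z i ω))) ∧
    Measurable (fun ω => F (kapt t n M K (C ω) (fun i => Z i ω)))) ∧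
  0 ≤ rho t n M K ∧ rho t n M K ≤ 1 - t

/-- JOB D5a.  Measurability of the longest chains.
Proof. For a finite family of points `u_i`, `i ∈ I`, `k ≤ LL {u_i}` iff there is a subset `J ⊆ I` with
`k` elements on which the `u_i` are pairwise comparable and different.  So for each value `(c₁,c₂)` of
`C`, `{ω : C ω = (c₁,c₂), k ≤ LL}` is a finite union of finite intersections of measurable sets. -/
def S_D5a : Prop := ∀ (t : NNReal) {Ω : Type} [MeasurableSpace Ω] (C : Ω → ℕ × ℕ)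
  (Z : ℕ → Ω → ((ℝ × ℝ) × ℝ) × (ℝ × ℝ)), Measurable C → (∀ i, Measurable (Z i)) →
  Measurable (fun ω => (LL (eta (C ω) (fun i => Z i ω)) : ℝ)) ∧
  Measurable (fun ω => (LL (etat t (C ω) (fun i => Z i ω)) : ℝ))

/-- JOB D5b.  Deterministic comparison.
Proof. Bounds: a chain in `eta` has at most `C.1` points, in `etat` at most `C.1 + C.2`; the field has
at most as many occupied cells.  If any two different labels have different columns and different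
rows, the points are different and `u ≤ u'` iff `cell u ≤ cell u'` (`cl` is monotone: `x ≤ x'` implies
`cl x ≤ cl x'`, and `cl x < cl x'` implies `x < x'`; for `x` not negative or in general since `⌊·⌋₊`, `min`
are monotone), so `u ↦ cell u` is an order isomorphism from the points onto the occupied cells, and
the longest chains have the same size.  Labels: `Sum.inl i`, `i < C.1`, the point `(z i).1.1`;
`Sum.inr j`, `j < C.2`, the point `(z j).2`. -/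
def S_D5b : Prop := ∀ (t : NNReal) (n M K : ℕ) [NeZero M] [NeZero K] (C : ℕ × ℕ)
  (z : ℕ → ((ℝ × ℝ) × ℝ) × (ℝ × ℝ)),
  LL (eta C z) ≤ C.1 ∧ Lc (kap n M K C z) ≤ C.1 ∧ LL (etat t C z) ≤ C.1 + C.2 ∧
  Lc (kapt t n M K C z) ≤ C.1 + C.2 ∧
  ((∀ i < C.1, ∀ j < C.1, i ≠ j → cl n M (z i).1.1.1 ≠ cl n M (z j).1.1.1 ∧
      cl n K (z i).1.1.2 ≠ cl n K (z j).1.1.2) →
    LL (eta C z) = Lc (kap n M K C z)) ∧
  ((∀ i < C.1, ∀ j < C.1, i ≠ j → cl n M (z i).1.1.1 ≠ cl n M (z j).1.1.1 ∧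
      cl n K (z i).1.1.2 ≠ cl n K (z j).1.1.2) →
    (∀ i < C.2, ∀ j < C.2, i ≠ j → cl n M (z i).2.1 ≠ cl n M (z j).2.1 ∧
      cl n K (z i).2.2 ≠ cl n K (z j).2.2) →
    (∀ i < C.1, ∀ j < C.2, cl n M (z i).1.1.1 ≠ cl n M (z j).2.1 ∧
      cl n K (z i).1.1.2 ≠ cl n K (z j).2.2) →
    LL (etat t C z) = Lc (kapt t n M K C z))

/-- JOB D5c.  Two labelled points in the same column or row.
Proof. The two points are independent with law `unif n` (different indices: `indZ` and the marginals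
of `lawZ`; `(Z i).1.1` and `(Z i).2` of the same index: product law `lawZ`), so the probability of the
same column is `Σ_a (1/M)² = 1/M` by D0; rows `1/K`; union bound. -/
def S_D5c : Prop := S_D0 → ∀ (n M K : ℕ) [NeZero M] [NeZero K] (t : NNReal) {Ω : Type}
  [MeasurableSpace Ω] (P : Measure Ω) (C : Ω → ℕ × ℕ) (Z : ℕ → Ω → ((ℝ × ℝ) × ℝ) × (ℝ × ℝ)),
  1 ≤ n → SettingM n t P C Z →
  (∀ i j : ℕ, i ≠ j → P.real {ω | cl n M (Z i ω).1.1.1 = cl n M (Z j ω).1.1.1 ∨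
    cl n K (Z i ω).1.1.2 = cl n K (Z j ω).1.1.2} ≤ 1 / M + 1 / K) ∧
  (∀ i j : ℕ, i ≠ j → P.real {ω | cl n M (Z i ω).2.1 = cl n M (Z j ω).2.1 ∨
    cl n K (Z i ω).2.2 = cl n K (Z j ω).2.2} ≤ 1 / M + 1 / K) ∧
  (∀ i j : ℕ, P.real {ω | cl n M (Z i ω).1.1.1 = cl n M (Z j ω).2.1 ∨
    cl n K (Z i ω).1.1.2 = cl n K (Z j ω).2.2} ≤ 1 / M + 1 / K)

/-- JOB D5.  The discretisation error.
Proof. Let `S = C.1 + C.2`.  Poisson variables have all moments, so `E S^4 =: m₄(n,t) < ∞` depends only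
on `n`, `t` (law of `C`).  By D5b `LL ≤ S` (so MemLp 2 with D5a) and `(LL - Lc)² ≤ S² 1_{bad}`, bad:
two labels in the same column or row.  Given `C = (c₁,c₂)` (independent of `Z`) the probability of bad
is at most `(c₁+c₂)² (1/M+1/K)` by D5c (union bound over the labelled pairs).  So the error is at
most `m₄ (1/M+1/K) ≤ 1` for `M, K ≥ 2 m₄`. -/
def S_D5 : Prop := S_D0 → S_D5a → S_D5b → S_D5c → ∀ (n : ℕ) (t : NNReal), 1 ≤ n → t ≤ 1 →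
  ∃ N₀ : ℕ, ∀ (M K : ℕ) [NeZero M] [NeZero K], N₀ ≤ M → N₀ ≤ K → ∀ {Ω : Type}
  [MeasurableSpace Ω] (P : Measure Ω) (C : Ω → ℕ × ℕ) (Z : ℕ → Ω → ((ℝ × ℝ) × ℝ) × (ℝ × ℝ)),
  SettingM n t P C Z →
  MemLp (fun ω => (LL (eta (C ω) (fun i => Z i ω)) : ℝ)) 2 P ∧
  MemLp (fun ω => (LL (etat t (C ω) (fun i => Z i ω)) : ℝ)) 2 P ∧
  ∫ ω, ((LL (eta (C ω) (fun i => Z i ω)) : ℝ) - Lc (kap n M K (C ω) (fun i => Z i ω))) ^ 2 ∂P ≤ 1 ∧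
  ∫ ω, ((LL (etat t (C ω) (fun i => Z i ω)) : ℝ) -
    Lc (kapt t n M K (C ω) (fun i => Z i ω))) ^ 2 ∂P ≤ 1

/-- JOB BC.  Parts B and C together.  `HCM`: conclusion of CM; `HBL`: conclusion of BL with the
hypotheses HF, HB discharged (see the statement).
Proof. `L = Lc`, `h x κ = (B⁻¹)^(De x κ)`: by DE (3) `0 ≤ DD L x κ = 1{De x κ = 0} ≤ h ≤ 1` and by DE (4)
the ratios are at most `B`.  Insert HBL in HCM. -/
def S_BC : Prop := S_MC → S_DE →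
  (∀ (ι : Type) [Fintype ι] [DecidableEq ι] (p B R s₀ ρ : ℝ) (k : ℕ)
  (L : (ι → Bool) → ℝ) (h : ι → (ι → Bool) → ℝ), 0 < p → p < 1 → 1 ≤ B → 1 ≤ R → 0 < s₀ →
  s₀ ≤ 1 / 2 → 0 ≤ ρ → ρ ≤ 1 →
  (∀ x κ, 0 ≤ DD L x κ ∧ DD L x κ ≤ h x κ ∧ h x κ ≤ 1) →
  (∀ x y κ, h x (Function.update κ y true) ≤ B * h x (Function.update κ y false) ∧
    h x (Function.update κ y false) ≤ B * h x (Function.update κ y true)) →
  0 ≤ SS p L ρ - SS p L 0 ∧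
  SS p L ρ - SS p L 0 ≤ (s₀⁻¹) ^ k * Real.exp (8 * B * R * s₀) *
    (p * ∑ x : ι, (Ex p (h x)) ^ 2 + p * Fintype.card ι * Real.exp (-R)) + ρ ^ k * Vr p L) →
  (∀ (ι : Type) [Fintype ι] [DecidableEq ι] [PartialOrder ι] (p α T v vT B e : ℝ) (M J : ℕ),
  0 < p → p < 1 → 0 < α → α ≤ 1 → 1 ≤ M → 1 / 2 ≤ (1 - p) ^ (M + 1) →
  0 ≤ v → 32 * v ≤ 1 → 0 ≤ vT →
  (∀ y : ι, ∑ z, kk p (2 * α) y z ≤ v) → (∀ z : ι, ∑ y, kk p (2 * α) y z ≤ v) →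
  (∀ y : ι, ∑ z, kk p T y z ≤ vT) → (∀ z : ι, ∑ y, kk p T y z ≤ vT) →
  64 * (M + vT + 1) / α ≤ B →
  4 * (v ^ M + p * Fintype.card ι * (1 + p * Fintype.card ι) * Real.exp (-T)) +
    Pr p (fun κ : ι → Bool => Lc κ ≤ 2 * M + J) ≤ e →
  p * ∑ x : ι, (Ex p (fun κ => (B⁻¹) ^ (De x κ))) ^ 2 ≤
    8 * (p * ∑ x : ι, (rr p 0 x) ^ 2) + 2 * (2 * e + (B⁻¹) ^ J) ^ 2 * (p * Fintype.card ι)) →
  ∀ (ι : Type) [Fintype ι] [DecidableEq ι] [PartialOrder ι] (p α T v vT B e R s₀ ρ : ℝ)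
  (M J k : ℕ), 0 < p → p < 1 → 0 < α → α ≤ 1 → 1 ≤ M → 1 / 2 ≤ (1 - p) ^ (M + 1) →
  0 ≤ v → 32 * v ≤ 1 → 0 ≤ vT →
  (∀ y : ι, ∑ z, kk p (2 * α) y z ≤ v) → (∀ z : ι, ∑ y, kk p (2 * α) y z ≤ v) →
  (∀ y : ι, ∑ z, kk p T y z ≤ vT) → (∀ z : ι, ∑ y, kk p T y z ≤ vT) →
  64 * (M + vT + 1) / α ≤ B →
  4 * (v ^ M + p * Fintype.card ι * (1 + p * Fintype.card ι) * Real.exp (-T)) +
    Pr p (fun κ : ι → Bool => Lc κ ≤ 2 * M + J) ≤ e →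
  1 ≤ R → 0 < s₀ → s₀ ≤ 1 / 2 → 0 ≤ ρ → ρ ≤ 1 →
  0 ≤ SS p (fun κ : ι → Bool => (Lc κ : ℝ)) ρ - SS p (fun κ : ι → Bool => (Lc κ : ℝ)) 0 ∧
  SS p (fun κ : ι → Bool => (Lc κ : ℝ)) ρ - SS p (fun κ : ι → Bool => (Lc κ : ℝ)) 0 ≤
    (s₀⁻¹) ^ k * Real.exp (8 * B * R * s₀) *
    (8 * (p * ∑ x : ι, (rr p 0 x) ^ 2) + 2 * (2 * e + (B⁻¹) ^ J) ^ 2 * (p * Fintype.card ι) +
      p * Fintype.card ι * Real.exp (-R)) + ρ ^ k * Vr p (fun κ : ι → Bool => (Lc κ : ℝ))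

/-- JOB FN.  Numerics: the covariance on the grid.
`H`: conclusion of BC for the square grids; `HV`: GV; `HL`: GL; `HA`: conclusion of A2.
Proof. Choose `k ≥ 1` with `s^k ≤ δ`, `η = 1/(200 k)`, `M = ⌈30/η⌉`, `J = ⌈10/η⌉`.  For fixed large `n` and
`N → ∞`: `p = pp n N N → 0`, `N² p ≤ n²` and `N² p ≥ n²/2` (so with `ν = N √p`: `n/√2 ≤ ν ≤ n`),
`N p → 0`.  Parameters (functions of `n` only are convenient): `α = n^{-η/2}`, `T = 10 log n`,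
`v = 4α (3 + log(1 + n²/(2α)))` (≥ the bound of GV with `c = 2α` as soon as
`2Np ≤ α`), `vT = 1 + T (3 + log(1+n²/T))`, `B = n^η`, `e = n^{-4}`, `R = 6 log n`, `s₀ = n^{-2η}`.
Check for `n ≥ n₀(k)`: `32 v ≤ 1` (`v ≤ n^{-η/3}`), `64(M+vT+1)/α ≤ n^{η}` (`vT ≤ n^{η/10}`),
`v^M ≤ n^{-10}`, `n²(1+n²) e^{-T} ≤ 2 n^{-6}`, `Pr(Lc ≤ 2M+J) ≤ ν^{-10}` (GL with `A = 10`, `k = 2M+J`), so
the sum is `≤ e`; `B^{-J} ≤ n^{-10}`; `2(2e + B^{-J})² N²p ≤ 1`; `N²p e^{-R} ≤ 1`; `(s₀⁻¹)^k = n^{2ηk} =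
n^{0.01}`, `8 B R s₀ = 48 n^{-η} log n ≤ 1`.  With HA: `p Σ rr² ≤ C ν^{0.52} ≤ C n^{0.52}` (for large `N`:
`p ≤ 1/16`, `ν^4 ≤ n^4 ≤ N²`).  So the difference is at most
`n^{0.01} · e · (8 C n^{0.52} + 2) + ρ^k Vr ≤ n^{0.56} + δ Vr` (`ρ^k ≤ s^k ≤ δ`). -/
def S_FN : Prop :=
  (∀ (N : ℕ) (p α T v vT B e R s₀ ρ : ℝ)
  (M J k : ℕ), 0 < p → p < 1 → 0 < α → α ≤ 1 → 1 ≤ M → 1 / 2 ≤ (1 - p) ^ (M + 1) →
  0 ≤ v → 32 * v ≤ 1 → 0 ≤ vT →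
  (∀ y : Fin N × Fin N, ∑ z, kk p (2 * α) y z ≤ v) →
  (∀ z : Fin N × Fin N, ∑ y, kk p (2 * α) y z ≤ v) →
  (∀ y : Fin N × Fin N, ∑ z, kk p T y z ≤ vT) → (∀ z : Fin N × Fin N, ∑ y, kk p T y z ≤ vT) →
  64 * (M + vT + 1) / α ≤ B →
  4 * (v ^ M + p * N ^ 2 * (1 + p * N ^ 2) * Real.exp (-T)) +
    Pr p (fun κ : Fin N × Fin N → Bool => Lc κ ≤ 2 * M + J) ≤ e →
  1 ≤ R → 0 < s₀ → s₀ ≤ 1 / 2 → 0 ≤ ρ → ρ ≤ 1 →
  0 ≤ SS p (fun κ : Fin N × Fin N → Bool => (Lc κ : ℝ)) ρ -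
    SS p (fun κ : Fin N × Fin N → Bool => (Lc κ : ℝ)) 0 ∧
  SS p (fun κ : Fin N × Fin N → Bool => (Lc κ : ℝ)) ρ -
    SS p (fun κ : Fin N × Fin N → Bool => (Lc κ : ℝ)) 0 ≤
    (s₀⁻¹) ^ k * Real.exp (8 * B * R * s₀) *
    (8 * (p * ∑ x : Fin N × Fin N, (rr p 0 x) ^ 2) +
      2 * (2 * e + (B⁻¹) ^ J) ^ 2 * (p * N ^ 2) +
      p * N ^ 2 * Real.exp (-R)) + ρ ^ k * Vr p (fun κ : Fin N × Fin N → Bool => (Lc κ : ℝ))) →
  S_GV → S_GL →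
  (∃ C ν₀ : ℝ, 1 ≤ C ∧ 1 ≤ ν₀ ∧ ∀ (q : ℝ) (N : ℕ), 0 < q → q ≤ 1 / 16 → ν₀ ≤ N * Real.sqrt q →
  (N * Real.sqrt q) ^ 4 ≤ (N : ℝ) ^ 2 →
  q * ∑ v : Fin N × Fin N, (rr q 0 v) ^ 2 ≤ C * (N * Real.sqrt q) ^ (52 / 100 : ℝ)) →
  ∀ s δ : ℝ, 0 ≤ s → s < 1 → 0 < δ → ∃ n₀ : ℕ, 1 ≤ n₀ ∧ ∀ n ≥ n₀, ∃ N₀ : ℕ, ∀ N ≥ N₀,
  ∀ ρ : ℝ, 0 ≤ ρ → ρ ≤ s →
  0 ≤ SS (pp n N N) (fun κ : Fin N × Fin N → Bool => (Lc κ : ℝ)) ρ -
    SS (pp n N N) (fun κ : Fin N × Fin N → Bool => (Lc κ : ℝ)) 0 ∧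
  SS (pp n N N) (fun κ : Fin N × Fin N → Bool => (Lc κ : ℝ)) ρ -
    SS (pp n N N) (fun κ : Fin N × Fin N → Bool => (Lc κ : ℝ)) 0 ≤
    (n : ℝ) ^ (56 / 100 : ℝ) + δ * Vr (pp n N N) (fun κ : Fin N × Fin N → Bool => (Lc κ : ℝ))

/-- JOB A3.  Numerics: the lower bound for the variance on grids of equal mesh.
`H`: conclusion of A1.
Proof. Let `b = ⌈n^{0.42}⌉`, `N = k b (b+1)`, `M = k (b+1)²`, `K = k b²` with `k` large (depending on `n`,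
`N₀`).  Then `M K = N²`, so `pp n M K = pp n N N = p`, `M - N = k(b+1) = N/b`, `N - K = k b`, `M ≤ 2N`.
With `ν = N √p`: `n² (1 - n²/(2N²)) ≤ N² p ≤ n²`, so `0.99 n ≤ ν ≤ n` for large `k`; `(M-N)√p = ν/b` and
`n^{0.42} ≤ b ≤ 1.01 n^{0.42}` for large `n`: `ν/b ≤ n^{0.58} ≤ 2 ν^{0.58}`, `ν/b ≥ 0.98 n^{0.58} ≥
ν^{0.58}/4`.  Also `p ≤ 1/16`, `ν^4 ≤ n^4 ≤ N²` for large `k`.  The result with `c/2`. -/
def S_A3 : Prop :=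
  (∃ c ν₀ : ℝ, 0 < c ∧ 1 ≤ ν₀ ∧ ∀ (q : ℝ) (N M K : ℕ), 0 < q → q ≤ 1 / 16 →
  ν₀ ≤ N * Real.sqrt q → (N * Real.sqrt q) ^ 4 ≤ (N : ℝ) ^ 2 → K ≤ N → N ≤ M → M ≤ 2 * N →
  N - K ≤ M - N → (N * Real.sqrt q) ^ (58 / 100 : ℝ) / 4 ≤ ((M : ℝ) - N) * Real.sqrt q →
  ((M : ℝ) - N) * Real.sqrt q ≤ 2 * (N * Real.sqrt q) ^ (58 / 100 : ℝ) →
  c * (N * Real.sqrt q) ^ (58 / 100 : ℝ) ≤
    Vr q (fun κ : Fin M × Fin K → Bool => (Lc κ : ℝ)) +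
    Vr q (fun κ : Fin N × Fin N → Bool => (Lc κ : ℝ))) →
  ∃ c : ℝ, 0 < c ∧ ∃ n₀ : ℕ, 1 ≤ n₀ ∧ ∀ n ≥ n₀, ∀ N₀ : ℕ, ∃ N M K : ℕ, N₀ ≤ N ∧ N₀ ≤ M ∧ N₀ ≤ K ∧
  1 ≤ K ∧ pp n M K = pp n N N ∧
  c * (n : ℝ) ^ (58 / 100 : ℝ) ≤
    Vr (pp n N N) (fun κ : Fin M × Fin K → Bool => (Lc κ : ℝ)) +
    Vr (pp n N N) (fun κ : Fin N × Fin N → Bool => (Lc κ : ℝ))

/-- JOB FC.  Correlations of nearby variables.
Proof. Let `σ² = v`.  `Var X' = Var Y' = v`, `Var(X-X') ≤ 1`, `Var(Y-Y') ≤ 1`, so by the triangle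
inequality for standard deviations `σ - 1 ≤ sd X, sd Y ≤ σ + 1`.
`cov(X,Y) - cov(X',Y') = cov(X-X', Y) + cov(X', Y-Y')`, so `|cov(X,Y)| ≤ a + δ v + (σ+1) + σ`.  With
`σ ≥ 2`, `Var X Var Y ≥ (σ-1)^4 ≥ (v/4)²`, so the quotient is at most
`4 (a + δ v + 2σ + 1)/v ≤ 4 a/v + 4δ + 16/σ` (`2σ + 1 ≤ 4σ`). -/
def S_FC : Prop := ∀ {Ω : Type} [MeasurableSpace Ω] (P : Measure Ω) [IsProbabilityMeasure P]
  (X Y X' Y' : Ω → ℝ) (v a δ : ℝ), MemLp X 2 P → MemLp Y 2 P → MemLp X' 2 P → MemLp Y' 2 P →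
  ∫ ω, (X ω - X' ω) ^ 2 ∂P ≤ 1 → ∫ ω, (Y ω - Y' ω) ^ 2 ∂P ≤ 1 → variance X' P = v →
  variance Y' P = v → 0 ≤ cov[X', Y'; P] → cov[X', Y'; P] ≤ a + δ * v → 0 ≤ a → 0 ≤ δ → 4 ≤ v →
  |cov[X, Y; P] / Real.sqrt (variance X P * variance Y P)| ≤
    4 * a / v + 4 * δ + 16 / Real.sqrt v

end Pool.Agent.Q295.PN
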